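import Mathlib

set_option autoImplicit false

namespace Pool.Agent.H427Z.Game

/-- the moves of the game -/
def DL : List (ℕ × ℕ) :=
  [(2,0),(3,0),(5,0),(6,0),(7,0),(8,0),(11,0),(14,0),(16,0),(18,0),(19,0),(20,0),(21,0),(24,0),
   (25,0),(29,0),(31,0),(32,0),(33,0),(34,0),(36,0),(38,0),(40,0),(42,0),(44,0),(46,0),(47,0),
   (48,0),(49,0),(51,0),(55,0),(56,0),(59,0),(60,0),(61,0),(62,0),(64,0),(66,0),(69,0),(72,0),
   (74,0),(77,0),(35,0),(35,1),(65,0),(30,0),(39,1),(4,0),(15,0),(41,0)]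

def val (r : ℕ) (u v : Bool) : Bool :=
  if r = 0 ∨ r = 1 ∨ r = 10 then true
  else if r = 23 then !u && !v
  else if r = 53 then !u && v
  else if r = 27 then u && !v
  else if r = 68 then u == v
  else false

def Hh (X y : ℕ) : Bool := decide (Nat.choose X (y + 1) % 2 = 0)
def U (X y : ℕ) : Bool := decide (1 ≤ X) && Hh (X - 1) y
def V (X y : ℕ) : Bool := decide (1 ≤ X) && decide (1 ≤ y) && Hh (X - 1) (y - 1)
def Q (x y : ℕ) : Bool := val (x % 80) (U (x / 80) y) (V (x / 80) y)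

lemma Hh_eq (X y : ℕ) : Hh X y = (U X y == V X y) := by
  rcases X with _ | X
  · simp [Hh, U, V]
  · rcases y with _ | y
    · simp only [Hh, U, V]
      simp
      by_cases h : X % 2 = 0
      · have : (X + 1) % 2 = 1 := by omega
        simp [h, this]
      · have : (X + 1) % 2 = 0 := by omega
        simp [h, this]
    · simp only [Hh, U, V]
      simp only [Nat.add_sub_cancel, Nat.le_add_left, decide_true, Bool.true_and]
      rw [Nat.choose_succ_succ' X (y + 1)]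
      by_cases h1 : Nat.choose X (y + 1) % 2 = 0 <;>
        by_cases h2 : Nat.choose X (y + 1 + 1) % 2 = 0 <;> simp [h1, h2] <;> omega

/-- local predecessor value -/
def predv (r : ℕ) (bX bY u0 v0 u1 v1 u2 v2 u3 v3 : Bool) (a : ℕ × ℕ) : Bool :=
  if a.1 ≤ r then
    (if a.2 = 0 then val (r - a.1) u0 v0 else bY && val (r - a.1) u2 v2)
  else
    (if a.2 = 0 then bX && val (r + 80 - a.1) u1 v1 else bX && bY && val (r + 80 - a.1) u3 v3)

def chk (r : ℕ) : Bool :=
  [true, false].all fun bX => [true, false].all fun bY => [true, false].all fun u1 =>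
  [true, false].all fun v1 => [true, false].all fun u2 => [true, false].all fun v2 =>
  [true, false].all fun u3 => [true, false].all fun v3 =>
    val r (bX && (u1 == v1)) (bX && bY && (u3 == v3)) ==
      DL.all fun a => !(predv r bX bY (bX && (u1 == v1)) (bX && bY && (u3 == v3))
        u1 v1 u2 v2 u3 v3 a)

lemma chk_all : (List.range 80).all chk = true := by decide +kernel

lemma key (r : ℕ) (hr : r < 80) (bX bY u1 v1 u2 v2 u3 v3 : Bool) :
    val r (bX && (u1 == v1)) (bX && bY && (u3 == v3)) =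
      DL.all fun a => !(predv r bX bY (bX && (u1 == v1)) (bX && bY && (u3 == v3))
        u1 v1 u2 v2 u3 v3 a) := by
  have h := List.all_eq_true.1 chk_all r (List.mem_range.2 hr)
  have hb : ∀ b : Bool, b ∈ [true, false] := by intro b; cases b <;> simp
  unfold chk at h
  have h := List.all_eq_true.1 h bX (hb _)
  have h := List.all_eq_true.1 h bY (hb _)
  have h := List.all_eq_true.1 h u1 (hb _)
  have h := List.all_eq_true.1 h v1 (hb _)
  have h := List.all_eq_true.1 h u2 (hb _)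
  have h := List.all_eq_true.1 h v2 (hb _)
  have h := List.all_eq_true.1 h u3 (hb _)
  have h := List.all_eq_true.1 h v3 (hb _)
  exact beq_iff_eq.1 h

lemma DL_bd : ∀ a ∈ DL, 0 < a.1 ∧ a.1 < 80 ∧ a.2 ≤ 1 := by decide

lemma predv_eq (x y : ℕ) (a : ℕ × ℕ) (ha : a ∈ DL) :
    predv (x % 80) (decide (1 ≤ x / 80)) (decide (1 ≤ y)) (U (x / 80) y) (V (x / 80) y)
      (U (x / 80 - 1) y) (V (x / 80 - 1) y) (U (x / 80) (y - 1)) (V (x / 80) (y - 1))
      (U (x / 80 - 1) (y - 1)) (V (x / 80 - 1) (y - 1)) a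
      = (decide (a.1 ≤ x) && decide (a.2 ≤ y) && Q (x - a.1) (y - a.2)) := by
  obtain ⟨h0, h1, h2⟩ := DL_bd a ha
  obtain ⟨dx, dy⟩ := a
  simp only at h0 h1 h2
  unfold predv Q
  simp only
  by_cases hx : dx ≤ x % 80
  · have e1 : (x - dx) % 80 = x % 80 - dx := by omega
    have e2 : (x - dx) / 80 = x / 80 := by omega
    have e3 : dx ≤ x := by omega
    rw [if_pos hx, e1, e2]
    by_cases hy : dy = 0
    · subst hy; simp [e3]
    · have : dy = 1 := by omega
      subst this; simp [e3]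
  · rw [if_neg hx]
    by_cases hX : 1 ≤ x / 80
    · have e1 : (x - dx) % 80 = x % 80 + 80 - dx := by omega
      have e2 : (x - dx) / 80 = x / 80 - 1 := by omega
      have e3 : dx ≤ x := by omega
      rw [e1, e2]
      by_cases hy : dy = 0
      · subst hy; simp [e3, hX]
      · have : dy = 1 := by omega
        subst this; simp [e3, hX]
    · have e3 : ¬ dx ≤ x := by omega
      by_cases hy : dy = 0
      · subst hy; simp [e3, hX]
      · simp [e3, hX, hy]

lemma Q_rec (x y : ℕ) :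
    Q x y = true ↔ ∀ a ∈ DL, a.1 ≤ x → a.2 ≤ y → Q (x - a.1) (y - a.2) = false := by
  have k := key (x % 80) (Nat.mod_lt _ (by norm_num)) (decide (1 ≤ x / 80)) (decide (1 ≤ y))
    (U (x / 80 - 1) y) (V (x / 80 - 1) y) (U (x / 80) (y - 1)) (V (x / 80) (y - 1))
    (U (x / 80 - 1) (y - 1)) (V (x / 80 - 1) (y - 1))
  rw [← Hh_eq, ← Hh_eq] at k
  have hU : (decide (1 ≤ x / 80) && Hh (x / 80 - 1) y) = U (x / 80) y := rfl
  have hV : (decide (1 ≤ x / 80) && decide (1 ≤ y) && Hh (x / 80 - 1) (y - 1)) = V (x / 80) y :=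
    rfl
  rw [hU, hV] at k
  have hQ : Q x y = val (x % 80) (U (x / 80) y) (V (x / 80) y) := rfl
  rw [hQ, k, List.all_eq_true]
  refine forall_congr' fun a => forall_congr' fun ha => ?_
  rw [predv_eq x y a ha]
  by_cases h1 : a.1 ≤ x <;> by_cases h2 : a.2 ≤ y <;> simp [h1, h2]

lemma lucas (n k : ℕ) :
    Nat.choose n k % 2 = (Nat.choose (n % 2) (k % 2) * Nat.choose (n / 2) (k / 2)) % 2 := by
  have : Fact (Nat.Prime 2) := ⟨Nat.prime_two⟩
  exact Choose.choose_modEq_choose_mod_mul_choose_div_nat (p := 2)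

lemma ch_even_odd (a b : ℕ) : Nat.choose (2 * a) (2 * b + 1) % 2 = 0 := by
  rw [lucas]
  have h1 : 2 * a % 2 = 0 := by omega
  have h2 : (2 * b + 1) % 2 = 1 := by omega
  simp [h1, h2]

lemma ch_double (a b : ℕ) : Nat.choose (2 * a) (2 * b) % 2 = Nat.choose a b % 2 := by
  rw [lucas]
  have h1 : 2 * a % 2 = 0 := by omega
  have h2 : (2 * b) % 2 = 0 := by omega
  have h3 : 2 * a / 2 = a := by omega
  have h4 : 2 * b / 2 = b := by omega
  simp [h1, h2, h3, h4]

lemma ch_pow (k : ℕ) : Nat.choose (3 * 2 ^ k) (2 ^ k) % 2 = 1 := by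
  induction k with
  | zero => decide
  | succ k ih =>
    have e1 : 3 * 2 ^ (k + 1) = 2 * (3 * 2 ^ k) := by ring
    have e2 : 2 ^ (k + 1) = 2 * 2 ^ k := by ring
    rw [e1, e2, ch_double, ih]

lemma ch_bad (i c : ℕ) : Nat.choose (3 * (2 ^ i * (4 * c + 3))) (2 ^ i * (4 * c + 3)) % 2 = 0 := by
  induction i with
  | zero =>
    rw [lucas]
    have h1 : 3 * (2 ^ 0 * (4 * c + 3)) / 2 = 2 * (3 * c + 2) := by omega
    have h2 : 2 ^ 0 * (4 * c + 3) / 2 = 2 * c + 1 := by omega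
    rw [h1, h2, Nat.mul_mod, ch_even_odd]
    simp
  | succ i ih =>
    have e1 : 3 * (2 ^ (i + 1) * (4 * c + 3)) = 2 * (3 * (2 ^ i * (4 * c + 3))) := by ring
    have e2 : 2 ^ (i + 1) * (4 * c + 3) = 2 * (2 ^ i * (4 * c + 3)) := by ring
    rw [e1, e2, ch_double, ih]

lemma Q_pt (N : ℕ) (hN : 1 ≤ N) :
    Q (240 * N + 107) N = true ↔
      (Nat.choose (3 * N) (N + 1) % 2 = 0 ∧ Nat.choose (3 * N) N % 2 ≠ 0) := by
  have e1 : (240 * N + 107) % 80 = 27 := by omega
  have e2 : (240 * N + 107) / 80 = 3 * N + 1 := by omega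
  have e3 : N - 1 + 1 = N := by omega
  unfold Q
  rw [e1, e2]
  simp [val, U, V, Hh, hN, e3]

lemma Q_good (k : ℕ) : Q (240 * 2 ^ (k + 1) + 107) (2 ^ (k + 1)) = true := by
  rw [Q_pt _ Nat.one_le_two_pow]
  refine ⟨?_, by rw [ch_pow]; decide⟩
  have e1 : 3 * 2 ^ (k + 1) = 2 * (3 * 2 ^ k) := by ring
  have e2 : 2 ^ (k + 1) + 1 = 2 * 2 ^ k + 1 := by ring
  rw [e1, e2, ch_even_odd]

lemma Q_bad (i j N : ℕ) (hij : i < j) (hN : N + 2 ^ (i + 1) = 2 * 2 ^ (j + 1)) :
    Q (240 * N + 107) N ≠ true := by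
  obtain ⟨l, rfl⟩ : ∃ l, j = i + 1 + l := ⟨j - (i + 1), by omega⟩
  have hl : 1 ≤ 2 ^ l := Nat.one_le_two_pow
  obtain ⟨c, hc⟩ : ∃ c, 2 ^ l = c + 1 := ⟨2 ^ l - 1, by omega⟩
  have hN' : N = 2 ^ (i + 1) * (4 * c + 3) := by
    have : 2 * 2 ^ (i + 1 + l + 1) = 2 ^ (i + 1) * (4 * c + 3) + 2 ^ (i + 1) := by
      rw [pow_succ, pow_add, hc]; ring
    omega
  have hpos : 1 ≤ N := by
    rw [hN']
    exact Nat.mul_pos (by positivity) (by omega)
  intro h
  rw [Q_pt _ hpos] at h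
  apply h.2
  rw [hN', ch_bad]

def D : Finset (Fin 2 → ℤ) := (DL.map fun a => ![(a.1 : ℤ), (a.2 : ℤ)]).toFinset

def P : Set (Fin 2 → ℕ) := {x | Q (x 0) (x 1) = true}

lemma mem_D (v : Fin 2 → ℤ) : v ∈ D ↔ ∃ a ∈ DL, v 0 = a.1 ∧ v 1 = a.2 := by
  unfold D
  rw [List.mem_toFinset, List.mem_map]
  constructor
  · rintro ⟨a, ha, rfl⟩
    exact ⟨a, ha, by simp, by simp⟩
  · rintro ⟨a, ha, h0, h1⟩
    refine ⟨a, ha, ?_⟩
    funext i
    fin_cases i
    · simp [h0]
    · simp [h1]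

lemma P_rec (x : Fin 2 → ℕ) :
    x ∈ P ↔ ∀ y : Fin 2 → ℕ, (fun i => (x i : ℤ) - (y i : ℤ)) ∈ D → y ∉ P := by
  show Q (x 0) (x 1) = true ↔ _
  rw [Q_rec]
  constructor
  · intro h y hy
    obtain ⟨a, ha, h0, h1⟩ := (mem_D _).1 hy
    have h0 : (x 0 : ℤ) - (y 0 : ℤ) = a.1 := h0
    have h1 : (x 1 : ℤ) - (y 1 : ℤ) = a.2 := h1
    have := h a ha (by omega) (by omega)
    have e0 : x 0 - a.1 = y 0 := by omega
    have e1 : x 1 - a.2 = y 1 := by omega
    rw [e0, e1] at this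
    show ¬ Q (y 0) (y 1) = true
    simp [this]
  · intro h a ha h0 h1
    have := h ![x 0 - a.1, x 1 - a.2] ((mem_D _).2 ⟨a, ha, by simp; omega, by simp; omega⟩)
    have h2 : ¬ Q (x 0 - a.1) (x 1 - a.2) = true := this
    simpa using h2

def z (N : ℕ) : Fin 2 → ℕ := ![240 * N + 107, N]

theorem not_semilinear :
    ¬ ∃ (k : ℕ) (b : Fin k → Fin 2 → ℕ) (m : Fin k → ℕ)
          (p : ∀ i : Fin k, Fin (m i) → Fin 2 → ℕ),
          P = {x | ∃ i : Fin k, ∃ c : Fin (m i) → ℕ, x = b i + ∑ j, c j • p i j} := by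
  classical
  rintro ⟨k, b, m, p, hP⟩
  let S : Fin k → Set ℕ := fun i =>
    {n | ∃ c : Fin (m i) → ℕ, z (2 ^ (n + 1)) = b i + ∑ j, c j • p i j}
  have hcover : (⋃ i, S i) = Set.univ := by
    apply Set.eq_univ_of_forall
    intro n
    have : z (2 ^ (n + 1)) ∈ P := Q_good n
    rw [hP] at this
    obtain ⟨i, c, hc⟩ := this
    exact Set.mem_iUnion.2 ⟨i, c, hc⟩
  have hinf : ∃ i, (S i).Infinite := by
    by_contra hcon
    push Not at hcon
    have : (⋃ i, S i).Finite := Set.finite_iUnion hcon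
    rw [hcover] at this
    exact Set.infinite_univ this
  obtain ⟨i, hi⟩ := hinf
  have : Infinite (S i) := hi.to_subtype
  let e := Nat.orderEmbeddingOfSet (S i)
  have he : ∀ n, e n ∈ S i := fun n => by
    have : e n ∈ Set.range e := ⟨n, rfl⟩
    rwa [Nat.orderEmbeddingOfSet_range] at this
  choose c hc using he
  obtain ⟨s, t, hst, hle⟩ := wellQuasiOrdered_le (α := Fin (m i) → ℕ) c
  have hlt : e s < e t := e.strictMono hst
  have hp : 2 ^ (e s + 1) ≤ 2 ^ (e t + 1) := Nat.pow_le_pow_right (by norm_num) (by omega)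
  obtain ⟨N, hN⟩ : ∃ N, N + 2 ^ (e s + 1) = 2 * 2 ^ (e t + 1) := ⟨2 * 2 ^ (e t + 1) - 2 ^ (e s + 1), by omega⟩
  apply Q_bad (e s) (e t) N hlt hN
  have hz : z N ∈ P := by
    rw [hP]
    refine ⟨i, fun j => c t j + (c t j - c s j), ?_⟩
    have hs := hc s
    have ht := hc t
    have hsum : (∑ j, (c t j + (c t j - c s j)) • p i j) + ∑ j, c s j • p i j
        = ∑ j, c t j • p i j + ∑ j, c t j • p i j := by
      rw [← Finset.sum_add_distrib, ← Finset.sum_add_distrib]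
      refine Finset.sum_congr rfl fun j _ => ?_
      rw [← add_smul, ← add_smul]
      have : c s j ≤ c t j := hle j
      congr 1
      omega
    have hzz : z N + z (2 ^ (e s + 1)) = z (2 ^ (e t + 1)) + z (2 ^ (e t + 1)) := by
      funext w
      fin_cases w
      · simp [z]; omega
      · simp [z]; omega
    rw [hs, ht] at hzz
    have : z N + (b i + ∑ j, c s j • p i j)
        = (b i + ∑ j, (c t j + (c t j - c s j)) • p i j) + (b i + ∑ j, c s j • p i j) := by
      rw [hzz, add_add_add_comm, ← hsum]; abel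
    exact add_right_cancel this
  exact hz

end Pool.Agent.H427Z.Game
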