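import Pool.Agent.Helper886.HCube.Perm

/-!
Sharp form of the capacity argument of Gurvits (built on the start file
`Pool.Agent.Helper886.HCube.Perm`, which has the constant `exp (-1)` per step), and a
quantitative form of the van der Waerden inequality for permanents.
-/

set_option autoImplicit false
open scoped BigOperators

namespace Pool.Agent.H427Z.Perm

open Pool.Agent.Helper886.HCube

/-- the Gurvits factor -/
noncomputable def g (k : ℕ) : ℝ := ((k : ℝ) / (k + 1)) ^ k

lemma g_pos (k : ℕ) : 0 < g k := by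
  unfold g
  rcases Nat.eq_zero_or_pos k with rfl | hk
  · simp
  · have : (0 : ℝ) < k := by exact_mod_cast hk
    positivity

lemma g_le_one (k : ℕ) : g k ≤ 1 := by
  unfold g
  apply pow_le_one₀ (by positivity)
  rw [div_le_one (by positivity)]
  linarith

/-- growth lemma -/
lemma lemC' (h : Polynomial ℂ) (k : ℕ) (hdeg : h.natDegree ≤ k + 1)
    (hroot : ∀ u, h.eval u = 0 → ‖u‖ + u.re ≤ 0) (c : ℝ) (hc : 0 < c)
    (hg : ∀ t : ℝ, 0 < t → c * t ≤ ‖h.eval (t : ℂ)‖) : c * g k ≤ ‖h.coeff 1‖ := by
  have hh0 : h ≠ 0 := by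
    rintro rfl
    have := hg 1 one_pos
    simp at this
    linarith
  by_cases h0 : h.eval 0 = 0
  · -- h = X * g
    have hco : h.coeff 0 = 0 := by rw [← Polynomial.coeff_zero_eq_eval_zero] at h0; exact h0
    have hX : h = Polynomial.X * h.divX := by
      have := Polynomial.divX_mul_X_add h
      rw [hco, map_zero, add_zero, mul_comm] at this
      exact this.symm
    have h1 : h.coeff 1 = h.divX.eval 0 := by
      rw [← Polynomial.coeff_zero_eq_eval_zero, Polynomial.coeff_divX]
    have h2 : ∀ t : ℝ, 0 < t → c ≤ ‖h.divX.eval (t : ℂ)‖ := by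
      intro t ht
      have h3 := hg t ht
      rw [hX, Polynomial.eval_mul, Polynomial.eval_X, norm_mul, Complex.norm_real,
        Real.norm_of_nonneg ht.le] at h3
      have h4 : t * c ≤ t * ‖h.divX.eval (t : ℂ)‖ := by linarith
      exact le_of_mul_le_mul_left h4 ht
    have h3 : c ≤ ‖h.divX.eval ((0 : ℝ) : ℂ)‖ := by
      have hcont : Continuous (fun t : ℝ => ‖h.divX.eval (t : ℂ)‖) := by
        exact (h.divX.continuous.comp Complex.continuous_ofReal).norm
      have ht : Filter.Tendsto (fun t : ℝ => ‖h.divX.eval (t : ℂ)‖) (nhdsWithin 0 (Set.Ioi 0))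
          (nhds ‖h.divX.eval ((0 : ℝ) : ℂ)‖) := (hcont.tendsto 0).mono_left nhdsWithin_le_nhds
      refine ge_of_tendsto ht ?_
      filter_upwards [self_mem_nhdsWithin] with t ht
      exact h2 t ht
    rw [h1]
    have h4 : g k ≤ 1 := g_le_one k
    calc c * g k ≤ c * 1 := mul_le_mul_of_nonneg_left h4 hc.le
      _ = c := mul_one c
      _ ≤ _ := by simpa using h3
  · have hs := IsAlgClosed.splits h
    have hneg : ∀ z ∈ h.roots, z = -((‖z‖ : ℝ) : ℂ) ∧ 0 < ‖z‖ := by
      intro z hz
      have hz' : h.eval z = 0 := (Polynomial.mem_roots hh0).mp hz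
      have h1 := hroot z hz'
      have h2 : z ≠ 0 := by rintro rfl; exact h0 hz'
      have h3 : 0 < ‖z‖ := norm_pos_iff.mpr h2
      refine ⟨?_, h3⟩
      have h4 : z.re = -‖z‖ := by
        have := Complex.abs_re_le_norm z
        have := neg_abs_le z.re
        linarith
      have h5 : z.im = 0 := by
        have h6 : ‖z‖ ^ 2 = z.re ^ 2 + z.im ^ 2 := by
          rw [← Complex.normSq_eq_norm_sq, Complex.normSq_apply]; ring
        rw [h4] at h6
        have : z.im ^ 2 = 0 := by linarith [h6]
        exact pow_eq_zero_iff (two_ne_zero) |>.mp this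
      apply Complex.ext
      · rw [h4]; simp
      · rw [h5]; simp
    set S : ℝ := (h.roots.map fun z => 1 / ‖z‖).sum with hS
    have hd : h.coeff 1 = h.eval 0 * (S : ℂ) := by
      have h1 : h.coeff 1 = h.derivative.eval 0 := by
        rw [← Polynomial.coeff_zero_eq_eval_zero, Polynomial.coeff_derivative]; simp
      rw [h1, hs.eval_derivative_eq_eval_mul_sum h0, hS]
      congr 1
      rw [← Complex.ofRealHom_eq_coe, map_multiset_sum, Multiset.map_map]
      congr 1
      apply Multiset.map_congr rfl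
      intro z hz
      simp only [Function.comp_apply, Complex.ofRealHom_eq_coe]
      push_cast
      congr 1
      rw [zero_sub]
      have := (hneg z hz).1
      nth_rewrite 1 [this]
      simp
    have hS0 : 0 ≤ S := by
      apply Multiset.sum_nonneg
      intro x hx
      obtain ⟨z, _, rfl⟩ := Multiset.mem_map.mp hx
      positivity
    have hup : ∀ t : ℝ, 0 ≤ t → ‖h.eval (t : ℂ)‖ ≤ ‖h.eval 0‖ * Real.exp (t * S) := by
      intro t ht
      rw [hs.eval_eq_prod_roots, hs.eval_eq_prod_roots, norm_mul, norm_mul, mul_assoc]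
      apply mul_le_mul_of_nonneg_left _ (norm_nonneg _)
      rw [norm_multiset_prod, norm_multiset_prod, Multiset.map_map, Multiset.map_map]
      have hexp : Real.exp (t * S) = (h.roots.map fun z => Real.exp (t * (1 / ‖z‖))).prod := by
        rw [hS, ← Multiset.sum_map_mul_left, Real.exp_multiset_sum, Multiset.map_map]
        rfl
      rw [hexp, ← Multiset.prod_map_mul]
      apply Multiset.prod_map_le_prod_map₀
      · intro z _; exact norm_nonneg _
      · intro z hz
        simp only [Function.comp_apply, zero_sub, norm_neg]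
        obtain ⟨h1, h2⟩ := hneg z hz
        have h3 : ‖(t : ℂ) - z‖ = t + ‖z‖ := by
          nth_rewrite 1 [h1]
          rw [sub_neg_eq_add, ← Complex.ofReal_add, Complex.norm_real]
          exact Real.norm_of_nonneg (by linarith)
        rw [h3]
        have h4 := Real.add_one_le_exp (t * (1 / ‖z‖))
        calc t + ‖z‖ = ‖z‖ * (t * (1 / ‖z‖) + 1) := by field_simp
          _ ≤ ‖z‖ * Real.exp (t * (1 / ‖z‖)) := mul_le_mul_of_nonneg_left h4 h2.le
    have hSpos : 0 < S := by
      rcases hS0.lt_or_eq with h1 | h1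
      · exact h1
      · exfalso
        rw [← h1] at hup
        have hN : 0 < ‖h.eval 0‖ := norm_pos_iff.mpr h0
        have h2 := hup (2 * ‖h.eval 0‖ / c) (by positivity)
        have h3 := hg (2 * ‖h.eval 0‖ / c) (by positivity)
        rw [mul_zero, Real.exp_zero, mul_one] at h2
        have h4 : c * (2 * ‖h.eval 0‖ / c) = 2 * ‖h.eval 0‖ := by field_simp
        rw [h4] at h3
        linarith
    rw [hd, norm_mul, Complex.norm_real, Real.norm_of_nonneg hS0]
    have hcard : h.roots.card ≤ k + 1 := (Polynomial.card_roots' h).trans hdeg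
    have hup2 : ∀ t lam : ℝ, 0 ≤ t → 0 < lam → ‖h.eval (t : ℂ)‖ ≤ ‖h.eval 0‖ *
        (lam ^ h.roots.card * Real.exp ((h.roots.card + t * S) / lam - h.roots.card)) := by
      intro t lam ht hlam
      rw [hs.eval_eq_prod_roots, hs.eval_eq_prod_roots, norm_mul, norm_mul, mul_assoc]
      apply mul_le_mul_of_nonneg_left _ (norm_nonneg _)
      rw [norm_multiset_prod, norm_multiset_prod, Multiset.map_map, Multiset.map_map]
      have hexp : lam ^ h.roots.card * Real.exp ((h.roots.card + t * S) / lam - h.roots.card) =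
          (h.roots.map fun z => lam * Real.exp ((1 + t * (1 / ‖z‖)) / lam - 1)).prod := by
        rw [Multiset.prod_map_mul, Multiset.map_const', Multiset.prod_replicate]
        congr 1
        have e1 : (h.roots.map fun z => Real.exp ((1 + t * (1 / ‖z‖)) / lam - 1)) =
            (h.roots.map fun z => (1 + t * (1 / ‖z‖)) / lam - 1).map Real.exp := by
          rw [Multiset.map_map]; rfl
        rw [e1, ← Real.exp_multiset_sum]
        congr 1
        rw [Multiset.sum_map_sub, Multiset.sum_map_div, Multiset.sum_map_add,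
          Multiset.sum_map_mul_left, hS]
        simp
      rw [hexp, ← Multiset.prod_map_mul]
      apply Multiset.prod_map_le_prod_map₀
      · intro z _; exact norm_nonneg _
      · intro z hz
        simp only [Function.comp_apply, zero_sub, norm_neg]
        obtain ⟨h1, h2⟩ := hneg z hz
        have h3 : ‖(t : ℂ) - z‖ = t + ‖z‖ := by
          nth_rewrite 1 [h1]
          rw [sub_neg_eq_add, ← Complex.ofReal_add, Complex.norm_real]
          exact Real.norm_of_nonneg (by linarith)
        rw [h3]
        have h4 := Real.add_one_le_exp ((1 + t * (1 / ‖z‖)) / lam - 1)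
        calc t + ‖z‖ = ‖z‖ * (lam * ((1 + t * (1 / ‖z‖)) / lam - 1 + 1)) := by
              field_simp; ring
          _ ≤ ‖z‖ * (lam * Real.exp ((1 + t * (1 / ‖z‖)) / lam - 1)) :=
              mul_le_mul_of_nonneg_left (mul_le_mul_of_nonneg_left h4 hlam.le) h2.le
    have hN : 0 < ‖h.eval 0‖ := norm_pos_iff.mpr h0
    rcases Nat.eq_zero_or_pos k with rfl | hk
    · -- degree at most one
      have hg0 : g 0 = 1 := by simp [g]
      rw [hg0, mul_one]
      have hb : ∀ t : ℝ, 0 < t → c * t ≤ ‖h.eval 0‖ * (1 + t * S) := by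
        intro t ht
        refine (hg t ht).trans ((hup2 t (1 + t * S) ht.le (by positivity)).trans ?_)
        apply mul_le_mul_of_nonneg_left _ hN.le
        have hc1 : h.roots.card = 0 ∨ h.roots.card = 1 := by omega
        rcases hc1 with e | e
        · have : h.roots = 0 := Multiset.card_eq_zero.1 e
          rw [this] at hS
          simp at hS
          linarith
        · rw [e]
          have : (((1 : ℕ) : ℝ) + t * S) / (1 + t * S) - ((1 : ℕ) : ℝ) = 0 := by
            have : (1 + t * S) ≠ 0 := by positivity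
            field_simp
            simp
          rw [this]; simp
      by_contra hlt
      push Not at hlt
      have h5 := hb (2 * ‖h.eval 0‖ / (c - ‖h.eval 0‖ * S)) (by
        have : 0 < c - ‖h.eval 0‖ * S := by linarith
        positivity)
      have h6 : (c - ‖h.eval 0‖ * S) * (2 * ‖h.eval 0‖ / (c - ‖h.eval 0‖ * S)) =
          2 * ‖h.eval 0‖ := by
        have : c - ‖h.eval 0‖ * S ≠ 0 := by linarith
        field_simp
      nlinarith
    · have hk' : (0 : ℝ) < k := by exact_mod_cast hk
      set lam : ℝ := (k + 1) / k with hlam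
      have hlam0 : 0 < lam := by positivity
      have h1 := hup2 (lam / S) lam (by positivity) hlam0
      have h2 := hg (lam / S) (by positivity)
      have h3 : lam / S * S = lam := by field_simp
      rw [h3] at h1
      obtain ⟨e, he⟩ : ∃ e, k + 1 = h.roots.card + e := ⟨k + 1 - h.roots.card, by omega⟩
      have he' : (k : ℝ) + 1 = h.roots.card + e := by exact_mod_cast he
      have h4 : ((h.roots.card : ℝ) + lam) / lam - h.roots.card = e * (1 / (k + 1)) := by
        have : (e : ℝ) = k + 1 - h.roots.card := by linarith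
        rw [this, hlam]; field_simp; ring
      have h5 : Real.exp (1 / (k + 1)) ≤ lam := by
        have h6 := Real.add_one_le_exp (-(1 / ((k : ℝ) + 1)))
        have h7 : -(1 / ((k : ℝ) + 1)) + 1 = lam⁻¹ := by rw [hlam]; field_simp; ring
        rw [h7, Real.exp_neg] at h6
        exact (inv_le_inv₀ hlam0 (Real.exp_pos _)).1 h6
      have h8 : lam ^ h.roots.card * Real.exp (((h.roots.card : ℝ) + lam) / lam - h.roots.card)
          ≤ lam ^ (k + 1) := by
        rw [h4, Real.exp_nat_mul, he, pow_add]
        exact mul_le_mul_of_nonneg_left (pow_le_pow_left₀ (Real.exp_pos _).le h5 e) (by positivity)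
      have h9 : c * (lam / S) ≤ ‖h.eval 0‖ * lam ^ (k + 1) :=
        h2.trans (h1.trans (mul_le_mul_of_nonneg_left h8 hN.le))
      have h10 : g k = (lam ^ k)⁻¹ := by
        rw [g, ← inv_pow, hlam, inv_div]
      rw [h10]
      have h11 : 0 < lam ^ k := by positivity
      rw [← div_eq_mul_inv, div_le_iff₀ h11]
      have h12 : c * (lam / S) * (S / lam) ≤ ‖h.eval 0‖ * lam ^ (k + 1) * (S / lam) :=
        mul_le_mul_of_nonneg_right h9 (by positivity)
      calc c = c * (lam / S) * (S / lam) := by field_simp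
        _ ≤ _ := h12
        _ = _ := by rw [pow_succ]; field_simp

open MvPolynomial

lemma up_deg {k : ℕ} {f : MvPolynomial (Fin (k + 1)) ℂ} (hf : f.IsHomogeneous (k + 1))
    (y : Fin k → ℂ) : (up f y).natDegree ≤ k + 1 := by
  unfold up
  refine Polynomial.natDegree_map_le.trans ?_
  rw [natDegree_finSuccEquiv]
  exact (degreeOf_le_totalDegree _ _).trans hf.totalDegree_le

lemma step (k : ℕ) (f : MvPolynomial (Fin (k + 1)) ℂ) (hf : f.IsHomogeneous (k + 1))
    (hs : Stab f) (c : ℝ) (hc : 0 < c) (hcap : ∀ x : Fin (k + 1) → ℝ, (∀ i, 0 < x i) →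
      c * ∏ i, x i ≤ ‖eval (fun i => (x i : ℂ)) f‖) :
    ((finSuccEquiv ℂ k f).coeff 1).IsHomogeneous k ∧ Stab ((finSuccEquiv ℂ k f).coeff 1) ∧
    ∀ x : Fin k → ℝ, (∀ i, 0 < x i) →
      c * g k * ∏ i, x i ≤ ‖eval (fun i => (x i : ℂ)) ((finSuccEquiv ℂ k f).coeff 1)‖ := by
  set q : MvPolynomial (Fin k) ℂ := (finSuccEquiv ℂ k f).coeff 1 with hq
  have hqhom : q.IsHomogeneous k := hf.finSuccEquiv_coeff_isHomogeneous 1 k (by omega)
  have hqev : ∀ y : Fin k → ℂ, eval y q = (up f y).coeff 1 := by
    intro y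
    rw [up, Polynomial.coeff_map]
  have hqev2 : ∀ y : Fin k → ℂ, eval y q = eval (Fin.cons 0 y : Fin (k + 1) → ℂ) (dd f) := by
    intro y
    rw [hqev, ← up_eval, up_dd, ← Polynomial.coeff_zero_eq_eval_zero,
      Polynomial.coeff_derivative]
    simp
  -- positivity growth in the first variable
  have hgrow : ∀ x : Fin k → ℝ, (∀ i, 0 < x i) → ∀ t : ℝ, 0 < t →
      (c * ∏ i, x i) * t ≤ ‖(up f (fun i => (x i : ℂ))).eval (t : ℂ)‖ := by
    intro x hx t ht
    rw [up_eval]
    have h1 := hcap (Fin.cons t x : Fin (k + 1) → ℝ) (by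
      intro i
      refine Fin.cases ?_ (fun j => ?_) i
      · exact ht
      · exact hx j)
    rw [Fin.prod_univ_succ] at h1
    simp only [Fin.cons_zero, Fin.cons_succ] at h1
    have h2 : (fun i => (((Fin.cons t x : Fin (k + 1) → ℝ) i : ℝ) : ℂ)) =
        (Fin.cons (t : ℂ) (fun i => (x i : ℂ)) : Fin (k + 1) → ℂ) := by
      funext i
      refine Fin.cases ?_ (fun j => ?_) i <;> simp
    rw [h2] at h1
    calc (c * ∏ i, x i) * t = c * (t * ∏ i, x i) := by ring
      _ ≤ _ := h1
  -- cap bound
  have hcapq : ∀ x : Fin k → ℝ, (∀ i, 0 < x i) →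
      c * g k * ∏ i, x i ≤ ‖eval (fun i => (x i : ℂ)) q‖ := by
    intro x hx
    rw [hqev]
    have hP : 0 < ∏ i, x i := Finset.prod_pos fun i _ => hx i
    have h1 := lemC' (up f (fun i => (x i : ℂ))) k (up_deg hf _) (by
      intro u hu
      by_contra hcon
      push Not at hcon
      rw [up_eval] at hu
      have h2 := hom_eval hf (((‖u‖ : ℝ) : ℂ) + (starRingEnd ℂ) u)
        (Fin.cons u (fun i => (x i : ℂ)) : Fin (k + 1) → ℂ)
      rw [hu, mul_zero] at h2
      refine hs _ ?_ h2
      intro i
      refine Fin.cases ?_ (fun j => ?_) i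
      · simp only [Fin.cons_zero]
        have h3 : ((((‖u‖ : ℝ) : ℂ) + (starRingEnd ℂ) u) * u).re = ‖u‖ * (‖u‖ + u.re) := by
          rw [add_mul, Complex.add_re, Complex.re_ofReal_mul, mul_comm ((starRingEnd ℂ) u),
            Complex.mul_conj, Complex.ofReal_re, Complex.normSq_eq_norm_sq]
          ring
        rw [h3]
        have h4 : u ≠ 0 := by
          rintro rfl
          simp at hcon
        exact mul_pos (norm_pos_iff.mpr h4) hcon
      · simp only [Fin.cons_succ]
        rw [mul_comm, Complex.re_ofReal_mul]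
        apply mul_pos (hx j)
        simp
        exact hcon) (c * ∏ i, x i) (by positivity) (hgrow x hx)
    calc c * g k * ∏ i, x i = (c * ∏ i, x i) * g k := by ring
      _ ≤ _ := h1
  -- stability of dd f
  have hdstab : Stab (dd f) := by
    intro z hz
    have hz' : z = (Fin.cons (z 0) (Fin.tail z) : Fin (k + 1) → ℂ) := (Fin.cons_self_tail z).symm
    rw [hz', ← up_eval, up_dd]
    have hst : ∀ u : ℂ, 0 < u.re → (up f (Fin.tail z)).eval u ≠ 0 := by
      intro u hu
      rw [up_eval]
      apply hs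
      intro i
      refine Fin.cases ?_ (fun j => ?_) i
      · exact hu
      · exact hz _
    apply lemD _ hst _ _ (hz 0)
    -- non constant
    intro hroots
    have hsp := IsAlgClosed.splits (up f (Fin.tail z))
    have hconst : ∀ u, (up f (Fin.tail z)).eval u = (up f (Fin.tail z)).leadingCoeff := by
      intro u
      rw [hsp.eval_eq_prod_roots, hroots]; simp
    set L := ‖(up f (Fin.tail z)).leadingCoeff‖ with hL
    set P := c * ∏ i, (Fin.tail z i).re with hP
    have hPpos : 0 < P := by
      apply mul_pos hc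
      exact Finset.prod_pos fun i _ => hz _
    have hb : ∀ t : ℝ, 0 < t → P * t ≤ L := by
      intro t ht
      have h1 := hgrow (fun i => (Fin.tail z i).re) (fun i => hz _) t ht
      have h2 := lemA hf hs (Fin.cons (t : ℂ) (Fin.tail z) : Fin (k + 1) → ℂ) (by
        intro i
        refine Fin.cases ?_ (fun j => ?_) i
        · simpa using ht
        · exact hz _)
      have h3 : (fun i => ((((Fin.cons (t : ℂ) (Fin.tail z) : Fin (k + 1) → ℂ) i).re : ℝ) : ℂ)) =
          (Fin.cons (t : ℂ) (fun i => (((Fin.tail z i).re : ℝ) : ℂ)) : Fin (k + 1) → ℂ) := by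
        funext i
        refine Fin.cases ?_ (fun j => ?_) i <;> simp
      rw [h3, ← up_eval, ← up_eval, hconst] at h2
      exact h1.trans h2
    have h4 := hb ((L + 1) / P) (by
      have : 0 ≤ L := norm_nonneg _
      positivity)
    rw [mul_div_cancel₀ _ hPpos.ne'] at h4
    linarith
  -- stability of q
  have hqstab : Stab q := by
    intro y hy
    have hhom := dd_hom hf
    have h1 : ∀ t : ℝ, 0 < t →
        ‖eval (Fin.cons (t : ℂ) (fun i => ((y i).re : ℂ)) : Fin (k + 1) → ℂ) (dd f)‖ ≤
        ‖eval (Fin.cons (t : ℂ) y : Fin (k + 1) → ℂ) (dd f)‖ := by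
      intro t ht
      have h2 := lemA hhom hdstab (Fin.cons (t : ℂ) y : Fin (k + 1) → ℂ) (by
        intro i
        refine Fin.cases ?_ (fun j => ?_) i
        · simpa using ht
        · exact hy _)
      have h3 : (fun i => ((((Fin.cons (t : ℂ) y : Fin (k + 1) → ℂ) i).re : ℝ) : ℂ)) =
          (Fin.cons (t : ℂ) (fun i => (((y i).re : ℝ) : ℂ)) : Fin (k + 1) → ℂ) := by
        funext i
        refine Fin.cases ?_ (fun j => ?_) i <;> simp
      rw [h3] at h2
      exact h2
    have hcont : ∀ w : Fin k → ℂ, Continuous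
        (fun t : ℝ => ‖eval (Fin.cons (t : ℂ) w : Fin (k + 1) → ℂ) (dd f)‖) := by
      intro w
      simp only [← up_eval]
      exact ((up (dd f) w).continuous.comp Complex.continuous_ofReal).norm
    have h2 : ‖eval (Fin.cons ((0 : ℝ) : ℂ) (fun i => ((y i).re : ℂ)) : Fin (k + 1) → ℂ) (dd f)‖ ≤
        ‖eval (Fin.cons ((0 : ℝ) : ℂ) y : Fin (k + 1) → ℂ) (dd f)‖ := by
      have ht1 := ((hcont (fun i => ((y i).re : ℂ))).tendsto 0).mono_left
        (nhdsWithin_le_nhds (s := Set.Ioi 0))
      have ht2 := ((hcont y).tendsto 0).mono_left (nhdsWithin_le_nhds (s := Set.Ioi 0))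
      refine le_of_tendsto_of_tendsto ht1 ht2 ?_
      filter_upwards [self_mem_nhdsWithin] with t ht
      exact h1 t ht
    rw [Complex.ofReal_zero, ← hqev2, ← hqev2] at h2
    have h3 := hcapq (fun i => (y i).re) hy
    have h4 : 0 < c * g k * ∏ i, (y i).re := by
      have : 0 < ∏ i, (y i).re := Finset.prod_pos fun i _ => hy i
      have := g_pos k
      positivity
    intro h0
    rw [h0, norm_zero] at h2
    linarith
  exact ⟨hqhom, hqstab, hcapq⟩

/-- `k! / k^k` -/
noncomputable def G (k : ℕ) : ℝ := (k.factorial : ℝ) / (k : ℝ) ^ k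

lemma G_succ (k : ℕ) : G (k + 1) = g k * G k := by
  unfold G g
  rcases Nat.eq_zero_or_pos k with rfl | hk
  · simp
  · have : (0 : ℝ) < k := by exact_mod_cast hk
    rw [Nat.factorial_succ]
    push_cast
    rw [div_pow, pow_succ]
    field_simp

lemma G_pos (k : ℕ) : 0 < G k := by
  induction k with
  | zero => simp [G]
  | succ k ih => rw [G_succ]; exact mul_pos (g_pos k) ih

lemma coeff_step {k : ℕ} (f : MvPolynomial (Fin (k + 1)) ℂ) :
    coeff (Finsupp.equivFunOnFinite.symm (fun _ => 1) : Fin k →₀ ℕ)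
      ((finSuccEquiv ℂ k f).coeff 1) =
    coeff (Finsupp.equivFunOnFinite.symm (fun _ => 1) : Fin (k + 1) →₀ ℕ) f := by
  rw [finSuccEquiv_coeff_coeff]
  congr 1
  ext i
  refine Fin.cases ?_ (fun j => ?_) i <;> simp

theorem main' (k : ℕ) : ∀ (f : MvPolynomial (Fin k) ℂ), f.IsHomogeneous k → Stab f →
    ∀ c : ℝ, 0 < c → (∀ x : Fin k → ℝ, (∀ i, 0 < x i) →
      c * ∏ i, x i ≤ ‖eval (fun i => (x i : ℂ)) f‖) →
    c * G k ≤ ‖coeff (Finsupp.equivFunOnFinite.symm (fun _ => 1)) f‖ := by
  induction k with
  | zero =>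
    intro f hf hs c hc hcap
    have := main 0 f hf hs c hc hcap
    simpa [G] using this
  | succ k ih =>
    intro f hf hs c hc hcap
    obtain ⟨h1, h2, h3⟩ := step k f hf hs c hc hcap
    have hfin := ih _ h1 h2 (c * g k) (mul_pos hc (g_pos k)) h3
    rw [coeff_step] at hfin
    rw [G_succ, ← mul_assoc]
    exact hfin

lemma xlogx (t t0 : ℝ) (ht : 0 ≤ t) (ht1 : t ≤ 1) (h0 : 0 < t0) (h1 : t0 ≤ 1) :
    t * Real.log t0 + (t - t0) + (t - t0) ^ 2 / 4 ≤ t * Real.log t := by
  obtain ⟨a, ha, rfl⟩ : ∃ a : ℝ, 0 ≤ a ∧ t = a ^ 2 := ⟨Real.sqrt t, Real.sqrt_nonneg _,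
    (Real.sq_sqrt ht).symm⟩
  obtain ⟨b, hb, rfl⟩ : ∃ b : ℝ, 0 < b ∧ t0 = b ^ 2 := ⟨Real.sqrt t0, Real.sqrt_pos.2 h0,
    (Real.sq_sqrt h0.le).symm⟩
  have ha1 : a ≤ 1 := by nlinarith
  have hb1 : b ≤ 1 := by nlinarith
  have hq : (a ^ 2 - b ^ 2) ^ 2 / 4 ≤ (a - b) ^ 2 := by
    have e : (a ^ 2 - b ^ 2) ^ 2 = (a - b) ^ 2 * (a + b) ^ 2 := by ring
    rw [e]
    have : (a + b) ^ 2 ≤ 4 := by nlinarith
    nlinarith [sq_nonneg (a - b)]
  rcases ha.eq_or_lt with rfl | ha'
  · simp
    nlinarith
  · rw [Real.log_pow, Real.log_pow]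
    have h2 := Real.log_le_sub_one_of_pos (div_pos hb ha')
    rw [Real.log_div hb.ne' ha'.ne'] at h2
    have h3 : a ^ 2 * (Real.log b - Real.log a) ≤ a ^ 2 * (b / a - 1) :=
      mul_le_mul_of_nonneg_left h2 (sq_nonneg a)
    have h4 : a ^ 2 * (b / a - 1) = a * b - a ^ 2 := by field_simp
    push_cast
    nlinarith

/-- Quantitative van der Waerden bound, first column. -/
theorem perm_lower0 {k : ℕ} (A : Fin (k + 1) → Fin (k + 1) → ℝ) (h0 : ∀ i j, 0 ≤ A i j)
    (hr : ∀ i, ∑ j, A i j = 1) (hc : ∀ j, ∑ i, A i j = 1) :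
    G (k + 1) * Real.exp ((∑ i, (A i 0 - 1 / (k + 1)) ^ 2) / 4) ≤
      ∑ σ : Equiv.Perm (Fin (k + 1)), ∏ i, A i (σ i) := by
  classical
  set p : MvPolynomial (Fin (k + 1)) ℂ := ∏ i, ∑ j, C ((A i j : ℝ) : ℂ) * X j with hp
  have hev : ∀ z : Fin (k + 1) → ℂ, eval z p = ∏ i, ∑ j, ((A i j : ℝ) : ℂ) * z j := by
    intro z
    rw [hp, map_prod]
    simp
  have hhom : p.IsHomogeneous (k + 1) := by
    have h1 := IsHomogeneous.prod Finset.univ (fun i : Fin (k + 1) => ∑ j, C ((A i j : ℝ) : ℂ) * X j)
      (fun _ => 1) (fun i _ => IsHomogeneous.sum _ _ _ fun j _ => isHomogeneous_C_mul_X _ _)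
    simpa using h1
  have hstab : Stab p := by
    intro z hz
    rw [hev, Finset.prod_ne_zero_iff]
    intro i _ h1
    have h2 : (∑ j, ((A i j : ℝ) : ℂ) * z j).re = ∑ j, A i j * (z j).re := by
      rw [Complex.re_sum]
      apply Finset.sum_congr rfl
      intro j _
      rw [Complex.re_ofReal_mul]
    rw [h1, Complex.zero_re] at h2
    have h3 : ∀ j ∈ Finset.univ, A i j * (z j).re = 0 :=
      (Finset.sum_eq_zero_iff_of_nonneg (fun j _ => mul_nonneg (h0 i j) (hz j).le)).mp h2.symm
    have h4 : ∑ j, A i j = 0 := by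
      apply Finset.sum_eq_zero
      intro j hj
      rcases mul_eq_zero.mp (h3 j hj) with h | h
      · exact h
      · exact absurd h (hz j).ne'
    rw [hr i] at h4
    exact one_ne_zero h4
  have hcap : ∀ x : Fin (k + 1) → ℝ, (∀ i, 0 < x i) →
      1 * ∏ i, x i ≤ ‖eval (fun i => (x i : ℂ)) p‖ := by
    intro x hx
    rw [hev, one_mul]
    have h1 : ∏ i, ∑ j, ((A i j : ℝ) : ℂ) * (x j : ℂ) = ((∏ i, ∑ j, A i j * x j : ℝ) : ℂ) := by
      push_cast; rfl
    rw [h1, Complex.norm_real]
    refine le_trans ?_ (le_abs_self _)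
    calc ∏ j, x j = ∏ j, x j ^ (∑ i, A i j) := by
          apply Finset.prod_congr rfl
          intro j _
          rw [hc j, Real.rpow_one]
      _ = ∏ j, ∏ i, x j ^ (A i j) := by
          apply Finset.prod_congr rfl
          intro j _
          rw [Real.rpow_sum_of_pos (hx j)]
      _ = ∏ i, ∏ j, x j ^ (A i j) := Finset.prod_comm
      _ ≤ ∏ i, ∑ j, A i j * x j := by
          apply Finset.prod_le_prod
          · intro i _
            exact Finset.prod_nonneg fun j _ => Real.rpow_nonneg (hx j).le _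
          · intro i _
            exact Real.geom_mean_le_arith_mean_weighted _ _ _ (fun j _ => h0 i j) (hr i)
              (fun j _ => (hx j).le)
  obtain ⟨hq1, hq2, -⟩ := step k p hhom hstab 1 one_pos hcap
  have hle1 : ∀ i, A i 0 ≤ 1 := fun i => by
    rw [← hr i]
    exact Finset.single_le_sum (f := fun j => A i j) (fun j _ => h0 i j) (Finset.mem_univ 0)
  set c : ℝ := ∏ i, (1 - A i 0) ^ (1 - A i 0) with hcdef
  have hcpos : 0 < c := by
    apply Finset.prod_pos
    intro i _
    rcases (sub_nonneg.2 (hle1 i)).eq_or_lt with e | e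
    · rw [← e]; simp
    · exact Real.rpow_pos_of_pos e _
  have hcapq : ∀ y : Fin k → ℝ, (∀ i, 0 < y i) →
      c * ∏ i, y i ≤ ‖eval (fun i => (y i : ℂ)) ((finSuccEquiv ℂ k p).coeff 1)‖ := by
    intro y hy
    set l : Fin (k + 1) → ℝ := fun i => ∑ j : Fin k, A i j.succ * y j with hl
    have hl0 : ∀ i, 0 ≤ l i := fun i =>
      Finset.sum_nonneg fun j _ => mul_nonneg (h0 _ _) (hy j).le
    have hrow : ∀ i, ∑ j : Fin k, A i j.succ = 1 - A i 0 := fun i => by
      have := hr i
      rw [Fin.sum_univ_succ] at this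
      linarith
    have hup : up p (fun i => (y i : ℂ)) =
        ∏ i, (Polynomial.C ((A i 0 : ℝ) : ℂ) * Polynomial.X + Polynomial.C ((l i : ℝ) : ℂ)) := by
      apply Polynomial.funext
      intro t
      rw [up_eval, hev, Polynomial.eval_prod]
      refine Finset.prod_congr rfl fun i _ => ?_
      rw [Fin.sum_univ_succ, Polynomial.eval_add, Polynomial.eval_mul, Polynomial.eval_C,
        Polynomial.eval_C, Polynomial.eval_X]
      simp [hl]
    have hval : eval (fun i => (y i : ℂ)) ((finSuccEquiv ℂ k p).coeff 1) =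
        ((∑ a, A a 0 * ∏ i ∈ Finset.univ.erase a, l i : ℝ) : ℂ) := by
      have e1 : eval (fun i => (y i : ℂ)) ((finSuccEquiv ℂ k p).coeff 1) =
          (up p (fun i => (y i : ℂ))).coeff 1 := by rw [up, Polynomial.coeff_map]
      have e2 : ∀ h : Polynomial ℂ, h.coeff 1 = h.derivative.eval 0 := fun h => by
        rw [← Polynomial.coeff_zero_eq_eval_zero, Polynomial.coeff_derivative]; simp
      rw [e1, e2, hup, Polynomial.derivative_prod_finset, Polynomial.eval_finsetSum]
      push_cast
      refine Finset.sum_congr rfl fun a _ => ?_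
      rw [Polynomial.eval_mul, Polynomial.eval_prod, mul_comm]
      simp
    rw [hval, Complex.norm_real]
    refine le_trans ?_ (le_abs_self _)
    have hA : ∀ i, (1 - A i 0) ^ (1 - A i 0) * ∏ j : Fin k, y j ^ (A i j.succ) ≤
        l i ^ (1 - A i 0) := by
      intro i
      rcases (sub_nonneg.2 (hle1 i)).eq_or_lt with e | e
      · have hz : ∀ j : Fin k, A i j.succ = 0 := by
          have h1 := hrow i
          rw [← e] at h1
          exact fun j => (Finset.sum_eq_zero_iff_of_nonneg (fun j _ => h0 i j.succ)).1 h1 j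
            (Finset.mem_univ _)
        rw [← e]
        simp [hz]
      · have h1 := Real.geom_mean_le_arith_mean_weighted Finset.univ
          (fun j : Fin k => A i j.succ / (1 - A i 0)) y
          (fun j _ => div_nonneg (h0 _ _) e.le)
          (by rw [← Finset.sum_div, hrow, div_self e.ne']) (fun j _ => (hy j).le)
        have h2 : ∑ j : Fin k, A i j.succ / (1 - A i 0) * y j = l i / (1 - A i 0) := by
          rw [hl, Finset.sum_div]
          exact Finset.sum_congr rfl fun j _ => by ring
        rw [h2, le_div_iff₀ e] at h1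
        have hp0 : 0 ≤ ∏ j : Fin k, y j ^ (A i j.succ / (1 - A i 0)) :=
          Finset.prod_nonneg fun j _ => Real.rpow_nonneg (hy j).le _
        have h3 := Real.rpow_le_rpow (mul_nonneg hp0 e.le) h1 e.le
        rw [Real.mul_rpow hp0 e.le, ← Real.finsetProd_rpow _ _
          (fun j _ => Real.rpow_nonneg (hy j).le _)] at h3
        rw [mul_comm]
        convert h3 using 3 with j
        rw [← Real.rpow_mul (hy j).le, div_mul_cancel₀ _ e.ne']
    calc c * ∏ j, y j = ∏ i, ((1 - A i 0) ^ (1 - A i 0) * ∏ j : Fin k, y j ^ (A i j.succ)) := by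
          rw [Finset.prod_mul_distrib, Finset.prod_comm]
          congr 1
          refine Finset.prod_congr rfl fun j _ => ?_
          rw [← Real.rpow_sum_of_pos (hy j), hc j.succ, Real.rpow_one]
      _ ≤ ∏ i, l i ^ (1 - A i 0) := by
          refine Finset.prod_le_prod (fun i _ => ?_) (fun i _ => hA i)
          exact mul_nonneg (Real.rpow_nonneg (sub_nonneg.2 (hle1 i)) _)
            (Finset.prod_nonneg fun j _ => Real.rpow_nonneg (hy j).le _)
      _ = ∏ a, (∏ i ∈ Finset.univ.erase a, l i) ^ (A a 0) := by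
          have e1 : ∀ a, (∏ i ∈ Finset.univ.erase a, l i) ^ (A a 0) =
              ∏ i, l i ^ (if i = a then 0 else A a 0) := by
            intro a
            rw [← Real.finsetProd_rpow _ _ (fun i _ => hl0 i),
              ← Finset.mul_prod_erase Finset.univ _ (Finset.mem_univ a)]
            simp only [if_true, Real.rpow_zero, one_mul]
            refine Finset.prod_congr rfl fun i hi => ?_
            rw [if_neg (Finset.ne_of_mem_erase hi)]
          simp only [e1]
          rw [Finset.prod_comm]
          refine Finset.prod_congr rfl fun i _ => ?_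
          rw [← Real.rpow_sum_of_nonneg (hl0 i) (fun a _ => by split_ifs; exacts [le_rfl, h0 _ _])]
          congr 1
          have e2 : ∑ a, (if i = a then 0 else A a 0) + A i 0 = ∑ a, A a 0 := by
            have : ∀ a, A a 0 = (if i = a then 0 else A a 0) + (if i = a then A a 0 else 0) := by
              intro a; split_ifs <;> simp
            conv_rhs => rw [Finset.sum_congr rfl fun a _ => this a]
            rw [Finset.sum_add_distrib]
            simp
          rw [hc 0] at e2
          linarith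
      _ ≤ _ := Real.geom_mean_le_arith_mean_weighted _ _ _ (fun a _ => h0 a 0) (hc 0)
          (fun a _ => Finset.prod_nonneg fun i _ => hl0 i)
  have hmain := main' k _ hq1 hq2 c hcpos hcapq
  rw [coeff_step] at hmain
  have hcg : g k * Real.exp ((∑ i, (A i 0 - 1 / (k + 1)) ^ 2) / 4) ≤ c := by
    rcases Nat.eq_zero_or_pos k with rfl | hk
    · have h1 : A 0 0 = 1 := by simpa using hc 0
      simp [hcdef, g, h1]
    · have hk' : (0 : ℝ) < k := by exact_mod_cast hk
      have ht0 : (0 : ℝ) < k / (k + 1) := by positivity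
      have ht1 : (k : ℝ) / (k + 1) ≤ 1 := by rw [div_le_one (by positivity)]; linarith
      have e1 : ∀ i, (1 - A i 0) ^ (1 - A i 0) = Real.exp ((1 - A i 0) * Real.log (1 - A i 0)) := by
        intro i
        rcases (sub_nonneg.2 (hle1 i)).eq_or_lt with e | e
        · rw [← e]; simp
        · rw [Real.rpow_def_of_pos e, mul_comm]
      have e2 : g k = Real.exp (k * Real.log (k / (k + 1))) := by
        rw [Real.exp_nat_mul, Real.exp_log ht0, g]
      rw [hcdef, e2, ← Real.exp_add]
      simp only [e1]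
      rw [← Real.exp_sum]
      apply Real.exp_le_exp.2
      have h1 := Finset.sum_le_sum (s := Finset.univ) fun (i : Fin (k + 1)) _ =>
        xlogx (1 - A i 0) (k / (k + 1)) (sub_nonneg.2 (hle1 i)) (by linarith [h0 i 0]) ht0 ht1
      refine le_trans (le_of_eq ?_) h1
      have hs1 : ∑ i : Fin (k + 1), (1 - A i 0) = k := by
        rw [Finset.sum_sub_distrib, hc 0]; simp
      rw [Finset.sum_add_distrib, Finset.sum_add_distrib, ← Finset.sum_mul, hs1,
        Finset.sum_sub_distrib, hs1, Finset.sum_div]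
      have e3 : ∀ i, (1 - A i 0 - k / (k + 1)) ^ 2 = (A i 0 - 1 / (k + 1)) ^ 2 := by
        intro i
        have : (1 : ℝ) - A i 0 - k / (k + 1) = -(A i 0 - 1 / (k + 1)) := by field_simp; ring
        rw [this, neg_sq]
      simp only [e3]
      simp
      field_simp
      ring
  have hcoeff : coeff (Finsupp.equivFunOnFinite.symm (fun _ => 1) : Fin (k + 1) →₀ ℕ) p =
      ((∑ σ : Equiv.Perm (Fin (k + 1)), ∏ i, A i (σ i) : ℝ) : ℂ) := by
    rw [hp, Finset.prod_univ_sum, coeff_sum]
    have h1 : ∀ g ∈ Fintype.piFinset (fun _ : Fin (k + 1) => (Finset.univ : Finset (Fin (k + 1)))),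
        coeff (Finsupp.equivFunOnFinite.symm (fun _ => 1) : Fin (k + 1) →₀ ℕ)
          (∏ i, C ((A i (g i) : ℝ) : ℂ) * X (g i)) =
        if Function.Bijective g then ((∏ i, A i (g i) : ℝ) : ℂ) else 0 := by
      intro g _
      have h2 : (∏ i, C ((A i (g i) : ℝ) : ℂ) * X (g i) : MvPolynomial (Fin (k + 1)) ℂ) =
          C ((∏ i, A i (g i) : ℝ) : ℂ) * monomial (∑ i, Finsupp.single (g i) 1) 1 := by
        rw [Finset.prod_mul_distrib]
        congr 1
        · push_cast
          rw [map_prod]
        · exact (monomial_sum_one Finset.univ (fun i => Finsupp.single (g i) 1)).symm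
      rw [h2, coeff_C_mul, coeff_monomial]
      have h3 : (∑ i, Finsupp.single (g i) 1 = (Finsupp.equivFunOnFinite.symm (fun _ => 1) :
          Fin (k + 1) →₀ ℕ)) ↔ Function.Bijective g := by
        constructor
        · intro h
          rw [← Finite.surjective_iff_bijective]
          intro j
          by_contra hj
          push Not at hj
          have h4 := DFunLike.congr_fun h j
          rw [Finsupp.finsetSum_apply] at h4
          simp only [Finsupp.equivFunOnFinite_symm_apply_apply] at h4
          rw [Finset.sum_eq_zero] at h4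
          · exact zero_ne_one h4
          · intro i _
            exact Finsupp.single_eq_of_ne (fun e => hj i e.symm)
        · intro h
          ext j
          rw [Finsupp.finsetSum_apply]
          have h4 : ∑ i, (Finsupp.single (g i) 1 : Fin (k + 1) →₀ ℕ) j =
              ∑ i, (Finsupp.single i 1 : Fin (k + 1) →₀ ℕ) j :=
            h.sum_comp (fun i => (Finsupp.single i 1 : Fin (k + 1) →₀ ℕ) j)
          rw [h4]
          simp [Finsupp.single_apply]
      by_cases hb : Function.Bijective g
      · rw [if_pos hb, if_pos (h3.mpr hb), mul_one]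
      · rw [if_neg hb, if_neg (fun h => hb (h3.mp h)), mul_zero]
    rw [Finset.sum_congr rfl h1, Fintype.piFinset_univ, ← Finset.sum_filter]
    push_cast
    symm
    apply Finset.sum_bij (fun (σ : Equiv.Perm (Fin (k + 1))) _ => (σ : Fin (k + 1) → Fin (k + 1)))
    · intro σ _
      exact Finset.mem_filter.mpr ⟨Finset.mem_univ _, σ.bijective⟩
    · intro σ _ τ _ h
      exact DFunLike.coe_injective h
    · intro g hg
      exact ⟨Equiv.ofBijective g (Finset.mem_filter.mp hg).2, Finset.mem_univ _, rfl⟩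
    · intro σ _
      rfl
  rw [hcoeff, Complex.norm_real, Real.norm_of_nonneg (Finset.sum_nonneg fun σ _ =>
    Finset.prod_nonneg fun i _ => h0 _ _)] at hmain
  refine le_trans ?_ hmain
  rw [G_succ, mul_comm (g k), mul_assoc, mul_comm]
  exact mul_le_mul_of_nonneg_right hcg (G_pos k).le

end Pool.Agent.H427Z.Perm
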