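import Pool.Agent.H427Z.PermA

set_option autoImplicit false
open scoped BigOperators
open Matrix

namespace Pool.Agent.H427Z.Perm

section general
variable {X : Type} [Fintype X] [DecidableEq X]

lemma per_reindex {Y : Type} [Fintype Y] [DecidableEq Y] (e : Y ≃ X) (A : Matrix X X ℝ) :
    (A.submatrix e e).permanent = A.permanent := by
  unfold Matrix.permanent
  rw [← Equiv.sum_comp (Equiv.permCongr e)]
  refine Finset.sum_congr rfl fun σ _ => ?_
  rw [← Equiv.prod_comp e]
  refine Finset.prod_congr rfl fun i _ => ?_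
  simp

lemma vdw (A : Matrix X X ℝ) (hA : A ∈ doublyStochastic ℝ X) :
    G (Fintype.card X) * Real.exp ((∑ x, ∑ y, (A x y - 1 / Fintype.card X) ^ 2) /
      (4 * Fintype.card X)) ≤ A.permanent := by
  rcases isEmpty_or_nonempty X with hX | hX
  · simp [G, Matrix.permanent_isEmpty]
  obtain ⟨k, hk⟩ : ∃ k, Fintype.card X = k + 1 :=
    ⟨Fintype.card X - 1, by have := Fintype.card_pos (α := X); omega⟩
  obtain ⟨j, -, hj⟩ := Finset.exists_max_image Finset.univ
    (fun y => ∑ x, (A x y - 1 / Fintype.card X) ^ 2) Finset.univ_nonempty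
  let e0 : Fin (k + 1) ≃ X := (Fintype.equivFinOfCardEq hk).symm
  let e : Fin (k + 1) ≃ X := e0.trans (Equiv.swap (e0 0) j)
  have he : e 0 = j := by simp [e]
  have h := perm_lower0 (fun i i' => A (e i) (e i'))
    (fun i i' => nonneg_of_mem_doublyStochastic hA)
    (fun i => by rw [Equiv.sum_comp e (fun y => A (e i) y)]; exact sum_row_of_mem_doublyStochastic hA _)
    (fun i => by rw [Equiv.sum_comp e (fun y => A y (e i))]; exact sum_col_of_mem_doublyStochastic hA _)
  have h2 : ∑ σ : Equiv.Perm (Fin (k + 1)), ∏ i, A (e i) (e (σ i)) = A.permanent := by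
    rw [← per_reindex e, ← Matrix.permanent_transpose]
    rfl
  rw [h2, he, Equiv.sum_comp e (fun x => (A x j - 1 / (k + 1)) ^ 2)] at h
  refine le_trans ?_ h
  rw [hk] at hj ⊢
  apply mul_le_mul_of_nonneg_left _ (G_pos _).le
  apply Real.exp_le_exp.2
  rw [Finset.sum_comm, div_le_div_iff₀ (by positivity) (by positivity)]
  have h3 := Finset.sum_le_sum (s := Finset.univ) hj
  rw [Finset.sum_const, Finset.card_univ, hk, nsmul_eq_mul] at h3
  push_cast at h3 ⊢
  nlinarith

end general

variable {X ι : Type} [Fintype X] [DecidableEq X] [Fintype ι] [DecidableEq ι] (cl : X → ι)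

/-- size of a class -/
def sz (b : ι) : ℕ := Fintype.card {x // cl x = b}

/-- the averaging matrix -/
noncomputable def E : Matrix X X ℝ := fun x y => if cl y = cl x then 1 / (sz cl (cl x) : ℝ) else 0

omit [DecidableEq X] [Fintype ι] in
lemma sz_pos (x : X) : 0 < sz cl (cl x) := Fintype.card_pos_iff.2 ⟨⟨x, rfl⟩⟩

omit [DecidableEq X] [Fintype ι] in
lemma sz_le (b : ι) : sz cl b ≤ Fintype.card X := Fintype.card_subtype_le _

omit [DecidableEq X] [Fintype ι] in
lemma sum_ind (b : ι) : ∑ x, (if cl x = b then (1 : ℝ) else 0) = sz cl b := by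
  rw [sz, Fintype.card_subtype, Finset.card_filter]
  push_cast
  rfl

lemma per_block (B : Matrix X X ℝ) (hB : ∀ x y, cl y ≠ cl x → B x y = 0) :
    B.permanent = ∏ b, (B.submatrix (Subtype.val : {x // cl x = b} → X) Subtype.val).permanent := by
  unfold Matrix.permanent
  rw [Finset.prod_univ_sum, Fintype.piFinset_univ]
  symm
  refine Finset.sum_of_injOn (fun g => DomMulAct.stabilizerEquiv_invFun_aux g) ?_
    (fun _ _ => Finset.mem_univ _) ?_ ?_
  · intro g _ g' _ h
    funext b
    ext a
    have h1 := DomMulAct.stabilizerEquiv_invFun_eq g a.2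
    have h2 := DomMulAct.stabilizerEquiv_invFun_eq g' a.2
    have h3 : DomMulAct.stabilizerEquiv_invFun g a = DomMulAct.stabilizerEquiv_invFun g' a :=
      congrArg (fun s : Equiv.Perm X => s a) h
    rw [h1, h2] at h3
    exact h3
  · intro σ _ hσ
    by_contra hne
    apply hσ
    have h1 : ∀ x, cl (σ x) = cl x := by
      intro x
      by_contra h
      exact hne (Finset.prod_eq_zero (Finset.mem_univ x) (hB _ _ (fun e => h e.symm)))
    refine ⟨fun b => Equiv.Perm.subtypePerm σ (fun a => by rw [h1]), by simp, ?_⟩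
    ext a
    rfl
  · intro g _
    rw [← Fintype.prod_fiberwise cl]
    refine Finset.prod_congr rfl fun b _ => Finset.prod_congr rfl fun a _ => ?_
    have h1 := DomMulAct.stabilizerEquiv_invFun_eq g a.2
    show B _ _ = B (DomMulAct.stabilizerEquiv_invFun g a) a
    rw [h1]

lemma per_E : (E cl).permanent = ∏ b, G (sz cl b) := by
  rw [per_block cl (E cl) (fun x y h => if_neg h)]
  refine Finset.prod_congr rfl fun b _ => ?_
  unfold Matrix.permanent
  have : ∀ σ : Equiv.Perm {x // cl x = b}, ∏ i, (E cl).submatrix Subtype.val Subtype.val (σ i) i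
      = (1 / (sz cl b : ℝ)) ^ sz cl b := by
    intro σ
    rw [Finset.prod_congr rfl (g := fun _ => 1 / (sz cl b : ℝ))]
    · simp [sz]
    · intro i _
      simp [E, i.2, (σ i).2]
  rw [Finset.sum_congr rfl fun σ _ => this σ]
  simp [G, Fintype.card_perm, sz, div_eq_mul_inv]

lemma per_E_pos : 0 < (E cl).permanent := by
  rw [per_E]; exact Finset.prod_pos fun b _ => G_pos _

lemma low0 (B : Matrix X X ℝ) (hB : B ∈ doublyStochastic ℝ X)
    (hp : ∀ x y, cl y ≠ cl x → B x y = 0) :
    (E cl).permanent * Real.exp ((∑ x, ∑ y, (B x y - E cl x y) ^ 2) / (4 * Fintype.card X))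
      ≤ B.permanent := by
  have hsum : ∀ (x : X) (b : ι), cl x = b → ∀ f : X → ℝ, (∀ y, cl y ≠ cl x → f y = 0) →
      ∑ y, f y = ∑ y : {y // cl y = b}, f y := by
    intro x b hx f hf
    rw [← Finset.sum_subtype (Finset.univ.filter fun y => cl y = b) (by simp),
      Finset.sum_filter_of_ne]
    intro y _ hy
    by_contra h
    exact hy (hf y (hx ▸ h))
  have hblk : ∀ b, B.submatrix (Subtype.val : {x // cl x = b} → X) Subtype.val ∈
      doublyStochastic ℝ {x // cl x = b} := by
    intro b
    rw [mem_doublyStochastic_iff_sum]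
    refine ⟨fun i j => nonneg_of_mem_doublyStochastic hB, fun i => ?_, fun j => ?_⟩
    · rw [← sum_row_of_mem_doublyStochastic hB i, hsum i b i.2 _ (fun y hy => hp _ _ hy)]
      rfl
    · rw [← sum_col_of_mem_doublyStochastic hB j,
        hsum j b j.2 _ (fun y hy => hp _ _ (fun e => hy e.symm))]
      rfl
  rw [per_block cl B hp, per_E, ← Fintype.sum_fiberwise cl, Finset.sum_div, Real.exp_sum,
    ← Finset.prod_mul_distrib]
  refine Finset.prod_le_prod (fun b _ => mul_nonneg (G_pos _).le (Real.exp_pos _).le)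
    fun b _ => le_trans ?_ (vdw _ (hblk b))
  apply mul_le_mul_of_nonneg_left _ (G_pos _).le
  apply Real.exp_le_exp.2
  have e1 : ∑ x : {x // cl x = b}, ∑ y, (B x y - E cl x y) ^ 2 =
      ∑ x : {x // cl x = b}, ∑ y : {x // cl x = b},
        (B.submatrix Subtype.val Subtype.val x y - 1 / Fintype.card {x // cl x = b}) ^ 2 := by
    refine Finset.sum_congr rfl fun x _ => ?_
    rw [hsum x b x.2 _ (fun y hy => by simp [hp _ _ hy, E, hy])]
    refine Finset.sum_congr rfl fun y _ => ?_
    simp [E, x.2, y.2, sz]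
  rw [e1]
  rcases isEmpty_or_nonempty {x // cl x = b} with h | h
  · simp
  · have h1 : (0 : ℝ) < Fintype.card {x // cl x = b} := by exact_mod_cast Fintype.card_pos
    have h2 : (Fintype.card {x // cl x = b} : ℝ) ≤ Fintype.card X := by
      exact_mod_cast sz_le cl b
    apply div_le_div_of_nonneg_left _ (by positivity) (by linarith)
    exact Finset.sum_nonneg fun _ _ => Finset.sum_nonneg fun _ _ => sq_nonneg _

/-- mass of row `x` in the class `b` -/
def q (M : Matrix X X ℝ) (x : X) (b : ι) : ℝ := ∑ y, if cl y = b then M x y else 0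

omit [DecidableEq X] in
lemma sum_q (M : Matrix X X ℝ) (x : X) : ∑ b, q cl M x b = ∑ y, M x y := by
  unfold q
  rw [Finset.sum_comm]
  simp

omit [DecidableEq X] [Fintype ι] in
lemma mul_E_apply (M : Matrix X X ℝ) (x y : X) :
    (M * E cl) x y = q cl M x (cl y) / sz cl (cl y) := by
  rw [Matrix.mul_apply, q, Finset.sum_div]
  refine Finset.sum_congr rfl fun z _ => ?_
  unfold E
  by_cases h : cl z = cl y
  · rw [if_pos h.symm, if_pos h, h]; ring
  · rw [if_neg (fun e => h e.symm), if_neg h]; simp

lemma upper (L : Matrix X X ℝ) (hL : L ∈ doublyStochastic ℝ X) (hLE : L * E cl = L) :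
    L.permanent ≤ (E cl).permanent ∧
      ((E cl).permanent ≤ L.permanent → ∀ x, ∑ b, q cl L x b ^ 2 = 1) := by
  classical
  have hq0 : ∀ x b, 0 ≤ q cl L x b := fun x b => Finset.sum_nonneg fun y _ => by
    split_ifs
    · exact nonneg_of_mem_doublyStochastic hL
    · exact le_rfl
  have hq1 : ∀ x, ∑ b, q cl L x b = 1 := fun x => by
    rw [sum_q, sum_row_of_mem_doublyStochastic hL]
  let R : (X → ι) → Matrix X X ℝ := fun f x y => if cl y = f x then 1 / (sz cl (f x) : ℝ) else 0
  let w : (X → ι) → ℝ := fun f => ∏ x, q cl L x (f x)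
  have hw0 : ∀ f, 0 ≤ w f := fun f => Finset.prod_nonneg fun x _ => hq0 _ _
  have hw1 : ∑ f, w f = 1 := by
    have := Finset.prod_univ_sum (fun _ : X => (Finset.univ : Finset ι)) (fun x b => q cl L x b)
    rw [Fintype.piFinset_univ] at this
    rw [← this]
    simp [hq1]
  have hper : L.permanent = ∑ f, w f * (R f).permanent := by
    rw [← Matrix.permanent_transpose]
    simp only [← Matrix.permanent_transpose (R _)]
    unfold Matrix.permanent
    simp only [Finset.mul_sum]
    rw [Finset.sum_comm]
    refine Finset.sum_congr rfl fun σ _ => ?_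
    have := Finset.prod_univ_sum (fun _ : X => (Finset.univ : Finset ι))
      (fun x b => q cl L x b * (if cl (σ x) = b then 1 / (sz cl b : ℝ) else 0))
    rw [Fintype.piFinset_univ] at this
    simp only [Finset.prod_mul_distrib] at this
    refine Eq.trans ?_ this
    refine Finset.prod_congr rfl fun x _ => ?_
    rw [Matrix.transpose_apply, ← hLE, mul_E_apply, hLE]
    simp [div_eq_mul_inv]
  have hR : ∀ f, (R f).permanent =
      if ∃ σ : Equiv.Perm X, f = cl ∘ σ then (E cl).permanent else 0 := by
    intro f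
    split_ifs with h
    · obtain ⟨σ, rfl⟩ := h
      rw [← Matrix.permanent_permute_cols σ (E cl)]
      rfl
    · rw [← Matrix.permanent_transpose]
      refine Finset.sum_eq_zero fun σ _ => ?_
      by_contra hne
      apply h
      refine ⟨σ, funext fun x => ?_⟩
      by_contra h1
      exact hne (Finset.prod_eq_zero (Finset.mem_univ x) (if_neg fun e => h1 e.symm))
  have hP := per_E_pos cl
  have hterm : ∀ f, w f * (R f).permanent ≤ w f * (E cl).permanent := by
    intro f
    apply mul_le_mul_of_nonneg_left _ (hw0 f)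
    rw [hR]
    split_ifs
    · exact le_rfl
    · exact hP.le
  have hsum : ∑ f, w f * (E cl).permanent = (E cl).permanent := by
    rw [← Finset.sum_mul, hw1, one_mul]
  refine ⟨by rw [hper, ← hsum]; exact Finset.sum_le_sum fun f _ => hterm f, fun hge x => ?_⟩
  have hreal : ∀ f, 0 < w f → ∃ σ : Equiv.Perm X, f = cl ∘ σ := by
    intro f hf
    by_contra h
    have : ∑ f, w f * (R f).permanent < ∑ f, w f * (E cl).permanent := by
      refine Finset.sum_lt_sum (fun f _ => hterm f) ⟨f, Finset.mem_univ _, ?_⟩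
      rw [hR, if_neg h, mul_zero]
      exact mul_pos hf hP
    rw [← hper, hsum] at this
    linarith
  have hex : ∀ z, ∃ b, 0 < q cl L z b := by
    intro z
    by_contra h
    push Not at h
    have := Finset.sum_nonpos (s := Finset.univ) fun b _ => h b
    rw [hq1] at this
    linarith
  choose f0 hf0 using hex
  have hcount : ∀ b, 0 < q cl L x b → ∀ a, ∑ z, (if Function.update f0 x b z = a then (1 : ℝ) else 0)
      = sz cl a := by
    intro b hb a
    obtain ⟨σ, hσ⟩ := hreal (Function.update f0 x b) (Finset.prod_pos fun z _ => by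
      by_cases hz : z = x
      · subst hz; simpa using hb
      · simpa [Function.update_of_ne hz] using hf0 z)
    rw [hσ, ← sum_ind]
    exact Equiv.sum_comp σ (fun z => if cl z = a then (1 : ℝ) else 0)
  have huniq : ∀ b, b ≠ f0 x → q cl L x b = 0 := by
    intro b hb
    by_contra h
    have h1 := hcount b (lt_of_le_of_ne (hq0 _ _) (Ne.symm h)) b
    have h2 := hcount (f0 x) (hf0 x) b
    rw [← Finset.add_sum_erase _ _ (Finset.mem_univ x)] at h1 h2
    have h3 : ∑ z ∈ Finset.univ.erase x, (if Function.update f0 x b z = b then (1 : ℝ) else 0) =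
        ∑ z ∈ Finset.univ.erase x, (if Function.update f0 x (f0 x) z = b then (1 : ℝ) else 0) := by
      refine Finset.sum_congr rfl fun z hz => ?_
      rw [Function.update_of_ne (Finset.ne_of_mem_erase hz),
        Function.update_of_ne (Finset.ne_of_mem_erase hz)]
    rw [h3] at h1
    simp only [Function.update_self, if_true, if_neg hb.symm] at h1 h2
    linarith
  have h1 : q cl L x (f0 x) = 1 := by
    rw [← hq1 x, Finset.sum_eq_single (f0 x) (fun b _ hb => huniq b hb) (by simp)]
  rw [Finset.sum_eq_single (f0 x) (fun b _ hb => by rw [huniq b hb]; simp) (by simp), h1]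
  simp

/-- entrywise `ℓ¹` norm -/
noncomputable def N1 (M : Matrix X X ℝ) : ℝ := ∑ x, ∑ y, |M x y|

omit [DecidableEq X] in
lemma abs_le_N1 (M : Matrix X X ℝ) (x y : X) : |M x y| ≤ N1 M :=
  (Finset.single_le_sum (f := fun y => |M x y|) (fun _ _ => abs_nonneg _)
    (Finset.mem_univ y)).trans (Finset.single_le_sum (f := fun x => ∑ y, |M x y|)
      (fun _ _ => Finset.sum_nonneg fun _ _ => abs_nonneg _) (Finset.mem_univ x))

omit [DecidableEq X] in
lemma N1_nonneg (M : Matrix X X ℝ) : 0 ≤ N1 M :=
  Finset.sum_nonneg fun _ _ => Finset.sum_nonneg fun _ _ => abs_nonneg _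

omit [Fintype ι] in
lemma minor_E (x y : X) :
    ∑ σ : Equiv.Perm X, (if σ x = y then ∏ z ∈ Finset.univ.erase x, E cl (σ z) z else 0) =
      if cl x = cl y then (E cl).permanent else 0 := by
  set p : X → ℝ := fun y =>
    ∑ σ : Equiv.Perm X, (if σ x = y then ∏ z ∈ Finset.univ.erase x, E cl (σ z) z else 0) with hp
  have h2 : ∀ y y', cl y = cl y' → p y = p y' := by
    intro y y' h
    simp only [hp]
    rw [← Equiv.sum_comp (Equiv.mulLeft (Equiv.swap y y'))]
    refine Finset.sum_congr rfl fun σ _ => ?_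
    have hc : ∀ u, cl (Equiv.swap y y' u) = cl u := fun u => Equiv.apply_swap_eq_self h u
    have h3 : (Equiv.swap y y' * σ) x = y ↔ σ x = y' := by
      rw [Equiv.Perm.mul_apply, Equiv.swap_apply_eq_iff, Equiv.swap_apply_left]
    simp only [Equiv.coe_mulLeft, h3]
    congr 1
    refine Finset.prod_congr rfl fun z _ => ?_
    simp only [E, Equiv.Perm.mul_apply, hc]
  have h3 : (E cl).permanent = ∑ y, E cl y x * p y := by
    simp only [hp, Finset.mul_sum]
    rw [Finset.sum_comm]
    refine Finset.sum_congr rfl fun σ _ => ?_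
    rw [← Finset.mul_prod_erase _ _ (Finset.mem_univ x)]
    simp
  show p y = _
  split_ifs with h
  · rw [h3]
    have : ∀ y', E cl y' x * p y' = (if cl y' = cl x then (1 : ℝ) else 0) * (p y / sz cl (cl x)) := by
      intro y'
      unfold E
      by_cases h' : cl y' = cl x
      · rw [if_pos h'.symm, if_pos h', h', h2 y' y (h'.trans h)]; ring
      · rw [if_neg (fun e => h' e.symm), if_neg h']; simp
    simp only [this]
    rw [← Finset.sum_mul, sum_ind]
    have : (0 : ℝ) < sz cl (cl x) := by exact_mod_cast sz_pos cl x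
    field_simp
  · refine Finset.sum_eq_zero fun σ _ => ?_
    split_ifs with h1
    · by_contra hne
      have h4 : ∀ z ∈ Finset.univ.erase x, cl z = cl (σ z) := by
        intro z hz
        by_contra h5
        exact hne (Finset.prod_eq_zero hz (if_neg h5))
      have h5 := Equiv.sum_comp σ (fun z => if cl z = cl x then (1 : ℝ) else 0)
      rw [← Finset.add_sum_erase _ _ (Finset.mem_univ x),
        ← Finset.add_sum_erase _ _ (Finset.mem_univ x),
        Finset.sum_congr rfl (fun z hz => by rw [← h4 z hz])] at h5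
      rw [h1, if_neg (fun e => h e.symm), if_pos rfl] at h5
      linarith
    · rfl

lemma expand0 (η : ℝ) (hη : 0 < η) : ∃ δ > 0, ∀ M M' : Matrix X X ℝ,
    N1 (M - E cl) ≤ δ → N1 (M' - E cl) ≤ δ →
    |M.permanent - M'.permanent -
      (E cl).permanent * ∑ x, ∑ y, (if cl y = cl x then (M - M') x y else 0)| ≤ η * N1 (M - M') := by
  let pr : X → X → ((X → X → ℝ) →L[ℝ] ℝ) := fun a b =>
    (ContinuousLinearMap.proj (R := ℝ) (φ := fun _ : X => ℝ) b).comp
      (ContinuousLinearMap.proj (R := ℝ) (φ := fun _ : X => X → ℝ) a)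
  let E' : X → X → ℝ := E cl
  have hd : HasStrictFDerivAt (fun M : X → X → ℝ => ∑ σ : Equiv.Perm X, ∏ i, M (σ i) i)
      (∑ σ : Equiv.Perm X, ∑ i, (∏ j ∈ Finset.univ.erase i, E' (σ j) j) • pr (σ i) i) E' := by
    refine HasStrictFDerivAt.fun_sum fun σ _ => ?_
    exact HasStrictFDerivAt.finsetProd (g := fun i (M : X → X → ℝ) => M (σ i) i)
      fun i _ => (pr (σ i) i).hasStrictFDerivAt
  have hval : ∀ Z : X → X → ℝ,
      (∑ σ : Equiv.Perm X, ∑ i, (∏ j ∈ Finset.univ.erase i, E' (σ j) j) • pr (σ i) i) Z =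
      (E cl).permanent * ∑ x, ∑ y, (if cl y = cl x then Z x y else 0) := by
    intro Z
    simp only [_root_.sum_apply, _root_.smul_apply, smul_eq_mul]
    rw [Finset.sum_comm, Finset.sum_comm (f := fun x y => if cl y = cl x then Z x y else 0),
      Finset.mul_sum]
    refine Finset.sum_congr rfl fun i _ => ?_
    rw [Finset.mul_sum]
    have : ∀ y, (E cl).permanent * (if cl i = cl y then Z y i else 0) =
        ∑ σ : Equiv.Perm X, (if σ i = y then
          (∏ z ∈ Finset.univ.erase i, E cl (σ z) z) * Z y i else 0) := by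
      intro y
      have h1 := minor_E cl i y
      have h2 : (E cl).permanent * (if cl i = cl y then Z y i else 0) =
          (if cl i = cl y then (E cl).permanent else 0) * Z y i := by split_ifs <;> simp
      rw [h2, ← h1, Finset.sum_mul]
      refine Finset.sum_congr rfl fun σ _ => ?_
      split_ifs <;> simp
    simp only [this]
    rw [Finset.sum_comm]
    refine Finset.sum_congr rfl fun σ _ => ?_
    simp [pr, E']
  have h1 := (Asymptotics.isLittleO_iff.1 hd.isLittleO) hη
  rw [Metric.eventually_nhds_iff] at h1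
  obtain ⟨ε, hε, h1⟩ := h1
  have hn : ∀ Z : Matrix X X ℝ, ‖(fun x y => Z x y : X → X → ℝ)‖ ≤ N1 Z := by
    intro Z
    rw [pi_norm_le_iff_of_nonneg (N1_nonneg Z)]
    intro x
    rw [pi_norm_le_iff_of_nonneg (N1_nonneg Z)]
    intro y
    exact abs_le_N1 Z x y
  refine ⟨ε / 2, by positivity, fun M M' hM hM' => ?_⟩
  have h2 := h1 (y := ((fun x y => M x y), (fun x y => M' x y))) (by
    rw [Prod.dist_eq, max_lt_iff, dist_eq_norm, dist_eq_norm]
    exact ⟨((hn (M - E cl)).trans hM).trans_lt (by linarith),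
      ((hn (M' - E cl)).trans hM').trans_lt (by linarith)⟩)
  rw [hval] at h2
  exact h2.trans (mul_le_mul_of_nonneg_left (hn (M - M')) hη.le)

end Pool.Agent.H427Z.Perm
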