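import Pool.Agent.H427Z.PermB

set_option autoImplicit false
set_option linter.unusedSectionVars false
open scoped BigOperators
open Matrix

namespace Pool.Agent.H427Z.Perm

variable {X ι : Type} [Fintype X] [DecidableEq X] [Fintype ι] [DecidableEq ι] (cl : X → ι)

section N1

lemma N1_add (M M' : Matrix X X ℝ) : N1 (M + M') ≤ N1 M + N1 M' := by
  unfold N1
  rw [← Finset.sum_add_distrib]
  refine Finset.sum_le_sum fun x _ => ?_
  rw [← Finset.sum_add_distrib]
  exact Finset.sum_le_sum fun y _ => abs_add_le _ _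

lemma N1_neg (M : Matrix X X ℝ) : N1 (-M) = N1 M := by simp [N1]

lemma N1_sub (M M' : Matrix X X ℝ) : N1 (M - M') ≤ N1 M + N1 M' := by
  rw [sub_eq_add_neg, ← N1_neg M']; exact N1_add _ _

lemma N1_transpose (M : Matrix X X ℝ) : N1 Mᵀ = N1 M := Finset.sum_comm

lemma N1_mul_ds (M D : Matrix X X ℝ) (hD : D ∈ doublyStochastic ℝ X) : N1 (M * D) ≤ N1 M := by
  unfold N1
  refine Finset.sum_le_sum fun x _ => ?_
  calc ∑ y, |(M * D) x y| ≤ ∑ y, ∑ z, |M x z| * D z y := by
        refine Finset.sum_le_sum fun y _ => ?_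
        rw [Matrix.mul_apply]
        refine (Finset.abs_sum_le_sum_abs _ _).trans (le_of_eq ?_)
        refine Finset.sum_congr rfl fun z _ => ?_
        rw [abs_mul, abs_of_nonneg (nonneg_of_mem_doublyStochastic hD)]
    _ = ∑ z, |M x z| := by
        rw [Finset.sum_comm]
        refine Finset.sum_congr rfl fun z _ => ?_
        rw [← Finset.mul_sum, sum_row_of_mem_doublyStochastic hD, mul_one]

lemma N1_ds_mul (M D : Matrix X X ℝ) (hD : D ∈ doublyStochastic ℝ X) : N1 (D * M) ≤ N1 M := by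
  rw [← N1_transpose, Matrix.transpose_mul, ← N1_transpose M]
  exact N1_mul_ds _ _ (transpose_mem_doublyStochastic_iff.2 hD)

lemma N1_mul (M M' : Matrix X X ℝ) : N1 (M * M') ≤ N1 M * N1 M' := by
  unfold N1
  rw [Finset.sum_mul]
  refine Finset.sum_le_sum fun x _ => ?_
  calc ∑ y, |(M * M') x y| ≤ ∑ y, ∑ z, |M x z| * |M' z y| := by
        refine Finset.sum_le_sum fun y _ => ?_
        rw [Matrix.mul_apply]
        refine (Finset.abs_sum_le_sum_abs _ _).trans (le_of_eq ?_)
        exact Finset.sum_congr rfl fun z _ => abs_mul _ _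
    _ ≤ _ := by
        rw [Finset.sum_comm, Finset.sum_mul]
        refine Finset.sum_le_sum fun z _ => ?_
        rw [← Finset.mul_sum]
        apply mul_le_mul_of_nonneg_left _ (abs_nonneg _)
        exact Finset.single_le_sum (f := fun x => ∑ y, |M' x y|)
          (fun _ _ => Finset.sum_nonneg fun _ _ => abs_nonneg _) (Finset.mem_univ z)

lemma N1_pow (M : Matrix X X ℝ) (k : ℕ) : N1 (M ^ (k + 1)) ≤ N1 M ^ (k + 1) := by
  induction k with
  | zero => simp
  | succ k ih =>
    rw [pow_succ, pow_succ (N1 M)]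
    exact (N1_mul _ _).trans (mul_le_mul_of_nonneg_right ih (N1_nonneg _))

lemma N1_pow_sub (A A0 : Matrix X X ℝ) (hA : A ∈ doublyStochastic ℝ X)
    (hA0 : A0 ∈ doublyStochastic ℝ X) (k : ℕ) : N1 (A ^ k - A0 ^ k) ≤ k * N1 (A - A0) := by
  induction k with
  | zero => simp [N1]
  | succ k ih =>
    have : A ^ (k + 1) - A0 ^ (k + 1) = A ^ k * (A - A0) + (A ^ k - A0 ^ k) * A0 := by
      rw [pow_succ, pow_succ]; noncomm_ring
    rw [this]
    have h1 := N1_ds_mul (A - A0) _ (pow_mem hA k)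
    have h2 := N1_mul_ds (A ^ k - A0 ^ k) _ hA0
    have h3 := N1_add (A ^ k * (A - A0)) ((A ^ k - A0 ^ k) * A0)
    push_cast
    linarith

lemma N1_sq (M : Matrix X X ℝ) :
    N1 M ^ 2 ≤ (Fintype.card X : ℝ) ^ 2 * ∑ x, ∑ y, M x y ^ 2 := by
  have h := sq_sum_le_card_mul_sum_sq (s := (Finset.univ : Finset (X × X)))
    (f := fun p => |M p.1 p.2|)
  rw [Fintype.sum_prod_type, Fintype.sum_prod_type, Finset.card_univ, Fintype.card_prod] at h
  simp only [sq_abs] at h
  push_cast at h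
  rw [sq (Fintype.card X : ℝ)]
  exact h

lemma N1_submatrix (M : Matrix X X ℝ) (τ : Equiv.Perm X) : N1 (M.submatrix τ id) = N1 M :=
  Equiv.sum_comp τ (fun x => ∑ y, |M x y|)

end N1

/-- `τ` permutes the classes -/
def Resp (τ : Equiv.Perm X) : Prop := ∀ x x', cl (τ x) = cl (τ x') ↔ cl x = cl x'

lemma Resp.pow {τ : Equiv.Perm X} (h : Resp cl τ) (k : ℕ) : Resp cl (τ ^ k) := by
  induction k with
  | zero => intro x x'; simp
  | succ k ih =>
    intro x x'
    rw [pow_succ', Equiv.Perm.mul_apply, Equiv.Perm.mul_apply, h, ih]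

/-- `E` with permuted rows -/
noncomputable def F (τ : Equiv.Perm X) : Matrix X X ℝ := (E cl).submatrix τ id

/-- support pattern -/
def Pat (τ : Equiv.Perm X) (M : Matrix X X ℝ) : Prop := ∀ x y, cl y ≠ cl (τ x) → M x y = 0

noncomputable def inb (τ : Equiv.Perm X) (M : Matrix X X ℝ) : ℝ :=
  ∑ x, ∑ y, if cl y = cl (τ x) then M x y else 0

noncomputable def leak (τ : Equiv.Perm X) (M : Matrix X X ℝ) : ℝ :=
  ∑ x, ∑ y, if cl y = cl (τ x) then 0 else M x y

lemma E_symm (x y : X) : E cl x y = E cl y x := by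
  unfold E
  by_cases h : cl y = cl x
  · rw [if_pos h, if_pos h.symm, h]
  · rw [if_neg h, if_neg (fun e => h e.symm)]

lemma E_ds : E cl ∈ doublyStochastic ℝ X := by
  have hr : ∀ x, ∑ y, E cl x y = 1 := by
    intro x
    have : ∀ y, E cl x y = (if cl y = cl x then (1 : ℝ) else 0) * (1 / sz cl (cl x)) := by
      intro y; unfold E; split_ifs <;> simp
    simp only [this]
    rw [← Finset.sum_mul, sum_ind]
    have : (0 : ℝ) < sz cl (cl x) := by exact_mod_cast sz_pos cl x
    field_simp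
  rw [mem_doublyStochastic_iff_sum]
  refine ⟨fun x y => ?_, hr, fun y => ?_⟩
  · unfold E; split_ifs <;> positivity
  · simp only [E_symm cl _ y]; exact hr y

lemma submatrix_ds {M : Matrix X X ℝ} (hM : M ∈ doublyStochastic ℝ X) (τ : Equiv.Perm X) :
    M.submatrix τ id ∈ doublyStochastic ℝ X := by
  rw [mem_doublyStochastic_iff_sum] at hM ⊢
  refine ⟨fun x y => hM.1 _ _, fun x => hM.2.1 _, fun y => ?_⟩
  rw [← hM.2.2 y]
  exact Equiv.sum_comp τ (fun x => M x y)

lemma F_ds (τ : Equiv.Perm X) : F cl τ ∈ doublyStochastic ℝ X := submatrix_ds (E_ds cl) τ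

lemma F_pat (τ : Equiv.Perm X) : Pat cl τ (F cl τ) := fun _ _ h => if_neg h

lemma F_congr (τ : Equiv.Perm X) (hτ : Resp cl τ) {x x' : X} (h : cl x = cl x') (y : X) :
    F cl τ x y = F cl τ x' y := by
  have := (hτ x x').2 h
  simp [F, E, this]

lemma F_one : F cl 1 = E cl := rfl

lemma F_mul (σ τ : Equiv.Perm X) (hτ : Resp cl τ) : F cl σ * F cl τ = F cl (τ * σ) := by
  ext x y
  rw [Matrix.mul_apply]
  have : ∀ z, F cl σ x z * F cl τ z y = F cl σ x z * F cl τ (σ x) y := by
    intro z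
    by_cases h : cl z = cl (σ x)
    · rw [F_congr cl τ hτ h]
    · rw [F_pat cl σ x z h, zero_mul, zero_mul]
  simp only [this]
  rw [← Finset.sum_mul, sum_row_of_mem_doublyStochastic (F_ds cl σ), one_mul]
  rfl

lemma resp_one : Resp cl 1 := fun _ _ => Iff.rfl

lemma Pat.mul {σ τ : Equiv.Perm X} {M M' : Matrix X X ℝ} (h : Pat cl σ M) (h' : Pat cl τ M')
    (hτ : Resp cl τ) : Pat cl (τ * σ) (M * M') := by
  intro x y hy
  rw [Matrix.mul_apply]
  refine Finset.sum_eq_zero fun z _ => ?_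
  by_cases hz : cl z = cl (σ x)
  · rw [h' z y (fun e => hy (e.trans ((hτ _ _).2 hz))), mul_zero]
  · rw [h x z hz, zero_mul]

lemma Pat.sub {σ : Equiv.Perm X} {M M' : Matrix X X ℝ} (h : Pat cl σ M) (h' : Pat cl σ M') :
    Pat cl σ (M - M') := fun x y hy => by simp [h x y hy, h' x y hy]

lemma Pat.add {σ : Equiv.Perm X} {M M' : Matrix X X ℝ} (h : Pat cl σ M) (h' : Pat cl σ M') :
    Pat cl σ (M + M') := fun x y hy => by simp [h x y hy, h' x y hy]

lemma pat_one : Pat cl 1 (1 : Matrix X X ℝ) := fun x y h =>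
  Matrix.one_apply_ne (fun e => h (by simp [e]))

lemma Pat.pow {σ : Equiv.Perm X} {M : Matrix X X ℝ} (h : Pat cl σ M) (hσ : Resp cl σ) (k : ℕ) :
    Pat cl (σ ^ k) (M ^ k) := by
  induction k with
  | zero => simpa using pat_one cl
  | succ k ih => rw [pow_succ', pow_succ M]; exact ih.mul cl h hσ

lemma inb_add_leak (τ : Equiv.Perm X) {M : Matrix X X ℝ} (hM : M ∈ doublyStochastic ℝ X) :
    inb cl τ M + leak cl τ M = Fintype.card X := by
  unfold inb leak
  rw [← Finset.sum_add_distrib]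
  have : ∀ x, (∑ y, if cl y = cl (τ x) then M x y else 0) +
      (∑ y, if cl y = cl (τ x) then 0 else M x y) = 1 := by
    intro x
    rw [← Finset.sum_add_distrib, ← sum_row_of_mem_doublyStochastic hM x]
    exact Finset.sum_congr rfl fun y _ => by split_ifs <;> simp
  simp [this]

lemma leak_pat {τ : Equiv.Perm X} {M : Matrix X X ℝ} (h : Pat cl τ M) : leak cl τ M = 0 :=
  Finset.sum_eq_zero fun x _ => Finset.sum_eq_zero fun y _ => by
    split_ifs with h1
    · rfl
    · exact h x y h1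

lemma inb_sub (τ : Equiv.Perm X) (M M' : Matrix X X ℝ) :
    inb cl τ (M - M') = inb cl τ M - inb cl τ M' := by
  unfold inb
  rw [← Finset.sum_sub_distrib]
  refine Finset.sum_congr rfl fun x _ => ?_
  rw [← Finset.sum_sub_distrib]
  exact Finset.sum_congr rfl fun y _ => by split_ifs <;> simp

lemma leak_nonneg (τ : Equiv.Perm X) {M : Matrix X X ℝ} (hM : M ∈ doublyStochastic ℝ X) :
    0 ≤ leak cl τ M :=
  Finset.sum_nonneg fun _ _ => Finset.sum_nonneg fun _ _ => by
    split_ifs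
    · exact le_rfl
    · exact nonneg_of_mem_doublyStochastic hM

lemma expand (η : ℝ) (hη : 0 < η) : ∃ δ > 0, ∀ (τ : Equiv.Perm X) (M M' : Matrix X X ℝ),
    M ∈ doublyStochastic ℝ X → M' ∈ doublyStochastic ℝ X →
    N1 (M - F cl τ) ≤ δ → N1 (M' - F cl τ) ≤ δ →
    |M.permanent - M'.permanent + (E cl).permanent * (leak cl τ M - leak cl τ M')|
      ≤ η * N1 (M - M') := by
  obtain ⟨δ, hδ, h⟩ := expand0 cl η hη
  refine ⟨δ, hδ, fun τ M M' hM hM' h1 h2 => ?_⟩
  have e : ∀ Z : Matrix X X ℝ, Z.submatrix τ.symm id - E cl = (Z - F cl τ).submatrix τ.symm id := by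
    intro Z; ext x y; simp [F]
  have h3 := h (M.submatrix τ.symm id) (M'.submatrix τ.symm id)
    (by rw [e, N1_submatrix]; exact h1) (by rw [e, N1_submatrix]; exact h2)
  have e2 : M.submatrix τ.symm id - M'.submatrix τ.symm id = (M - M').submatrix τ.symm id := by
    ext x y; simp
  rw [Matrix.permanent_permute_cols, Matrix.permanent_permute_cols, e2, N1_submatrix] at h3
  have e3 : (∑ x, ∑ y, if cl y = cl x then (M - M').submatrix τ.symm id x y else 0) =
      inb cl τ (M - M') := by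
    unfold inb
    rw [← Equiv.sum_comp τ]
    simp
  have e4 := inb_add_leak cl τ hM
  have e5 := inb_add_leak cl τ hM'
  rw [e3, inb_sub] at h3
  convert h3 using 2
  have : inb cl τ M - inb cl τ M' = -(leak cl τ M - leak cl τ M') := by linarith
  rw [this]; ring

lemma low (τ : Equiv.Perm X) (M : Matrix X X ℝ) (hM : M ∈ doublyStochastic ℝ X)
    (hp : Pat cl τ M) :
    (E cl).permanent * (1 + (∑ x, ∑ y, (M - F cl τ) x y ^ 2) / (4 * Fintype.card X))
      ≤ M.permanent := by
  have h := low0 cl (M.submatrix τ.symm id) (submatrix_ds hM _)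
    (fun x y h => hp _ _ (by simpa using h))
  rw [Matrix.permanent_permute_cols, ← Equiv.sum_comp τ] at h
  refine le_trans (mul_le_mul_of_nonneg_left ?_ (per_E_pos cl).le) h
  rw [add_comm]
  refine le_trans (le_of_eq ?_) (Real.add_one_le_exp _)
  simp [F]

lemma per_F (τ : Equiv.Perm X) : (F cl τ).permanent = (E cl).permanent :=
  Matrix.permanent_permute_cols τ _

lemma leak_mul {σ τ : Equiv.Perm X} (hσ : Resp cl σ) {M A : Matrix X X ℝ}
    (hM : M ∈ doublyStochastic ℝ X) (hA : A ∈ doublyStochastic ℝ X) :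
    leak cl (σ * τ) (M * A) ≤ leak cl τ M + leak cl σ A ∧
    leak cl τ M + leak cl σ A - 2 * (leak cl τ M * leak cl σ A) ≤ leak cl (σ * τ) (M * A) := by
  let u : X → X → ℝ := fun x z => if cl z = cl (τ x) then 0 else 1
  let v : X → X → ℝ := fun z y => if cl y = cl (σ z) then 0 else 1
  let w : X → X → ℝ := fun x y => if cl y = cl (σ (τ x)) then 0 else 1
  have hM0 : ∀ x z, 0 ≤ M x z := fun _ _ => nonneg_of_mem_doublyStochastic hM
  have hA0 : ∀ x z, 0 ≤ A x z := fun _ _ => nonneg_of_mem_doublyStochastic hA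
  have huvw : ∀ x z y, w x y ≤ u x z + v z y ∧ u x z + v z y - 2 * (u x z * v z y) ≤ w x y := by
    intro x z y
    simp only [u, v, w]
    by_cases h1 : cl z = cl (τ x)
    · have h2 := (hσ _ _).2 h1
      rw [h2, if_pos h1]
      simp
    · by_cases h2 : cl y = cl (σ z)
      · have h3 : ¬ cl y = cl (σ (τ x)) := fun e => h1 ((hσ _ _).1 (h2.symm.trans e))
        rw [if_neg h1, if_pos h2, if_neg h3]
        simp
      · rw [if_neg h1, if_neg h2]
        split_ifs <;> norm_num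
  have ew : leak cl (σ * τ) (M * A) = ∑ x, ∑ z, ∑ y, M x z * A z y * w x y := by
    refine Finset.sum_congr rfl fun x _ => ?_
    rw [Finset.sum_comm]
    refine Finset.sum_congr rfl fun y _ => ?_
    rw [← Finset.sum_mul, ← Matrix.mul_apply]
    simp only [w, Equiv.Perm.mul_apply]
    split_ifs <;> simp
  have eu : leak cl τ M = ∑ x, ∑ z, ∑ y, M x z * A z y * u x z := by
    refine Finset.sum_congr rfl fun x _ => Finset.sum_congr rfl fun z _ => ?_
    rw [← Finset.sum_mul, ← Finset.mul_sum, sum_row_of_mem_doublyStochastic hA]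
    simp only [u]
    split_ifs <;> simp
  have ev' : leak cl σ A = ∑ z, ∑ y, A z y * v z y := by
    refine Finset.sum_congr rfl fun z _ => Finset.sum_congr rfl fun y _ => ?_
    simp only [v]
    split_ifs <;> simp
  have eu' : leak cl τ M = ∑ x, ∑ z, M x z * u x z := by
    refine Finset.sum_congr rfl fun z _ => Finset.sum_congr rfl fun y _ => ?_
    simp only [u]
    split_ifs <;> simp
  have ev : leak cl σ A = ∑ x, ∑ z, ∑ y, M x z * A z y * v z y := by
    rw [ev', Finset.sum_comm (f := fun x z => ∑ y, M x z * A z y * v z y)]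
    refine Finset.sum_congr rfl fun z _ => ?_
    rw [Finset.sum_comm]
    refine Finset.sum_congr rfl fun y _ => ?_
    simp only [mul_assoc]
    rw [← Finset.sum_mul, sum_col_of_mem_doublyStochastic hM, one_mul]
  have hu0 : ∀ x z, 0 ≤ u x z := fun x z => by simp only [u]; split_ifs <;> norm_num
  have hv0 : ∀ x z, 0 ≤ v x z := fun x z => by simp only [v]; split_ifs <;> norm_num
  have euv : ∑ x, ∑ z, ∑ y, M x z * A z y * (u x z * v z y) ≤ leak cl τ M * leak cl σ A := by
    rw [eu', Finset.sum_mul]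
    refine Finset.sum_le_sum fun x _ => ?_
    rw [Finset.sum_mul]
    refine Finset.sum_le_sum fun z _ => ?_
    have : ∑ y, M x z * A z y * (u x z * v z y) = M x z * u x z * ∑ y, A z y * v z y := by
      rw [Finset.mul_sum]; exact Finset.sum_congr rfl fun y _ => by ring
    rw [this, ev']
    apply mul_le_mul_of_nonneg_left _ (mul_nonneg (hM0 _ _) (hu0 _ _))
    exact Finset.single_le_sum (f := fun z => ∑ y, A z y * v z y)
      (fun z _ => Finset.sum_nonneg fun y _ => mul_nonneg (hA0 _ _) (hv0 _ _)) (Finset.mem_univ z)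
  constructor
  · rw [ew, eu, ev]
    simp only [← Finset.sum_add_distrib]
    refine Finset.sum_le_sum fun x _ => Finset.sum_le_sum fun z _ =>
      Finset.sum_le_sum fun y _ => ?_
    rw [← mul_add]
    exact mul_le_mul_of_nonneg_left (huvw x z y).1 (mul_nonneg (hM0 _ _) (hA0 _ _))
  · have : (∑ x, ∑ z, ∑ y, M x z * A z y * u x z) + (∑ x, ∑ z, ∑ y, M x z * A z y * v z y) -
        2 * (∑ x, ∑ z, ∑ y, M x z * A z y * (u x z * v z y)) ≤
        ∑ x, ∑ z, ∑ y, M x z * A z y * w x y := by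
      simp only [Finset.mul_sum, ← Finset.sum_add_distrib, ← Finset.sum_sub_distrib]
      refine Finset.sum_le_sum fun x _ => Finset.sum_le_sum fun z _ =>
        Finset.sum_le_sum fun y _ => ?_
      have := mul_le_mul_of_nonneg_left (huvw x z y).2 (mul_nonneg (hM0 x z) (hA0 z y))
      linarith
    rw [← ew, ← eu, ← ev] at this
    linarith

lemma leak_pow {σ : Equiv.Perm X} (hσ : Resp cl σ) {A : Matrix X X ℝ}
    (hA : A ∈ doublyStochastic ℝ X) (k : ℕ) :
    leak cl (σ ^ k) (A ^ k) ≤ k * leak cl σ A ∧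
    k * leak cl σ A - (k * leak cl σ A) ^ 2 ≤ leak cl (σ ^ k) (A ^ k) := by
  have h0 := leak_nonneg cl σ hA
  induction k with
  | zero => simp [leak_pat cl (pat_one cl)]
  | succ k ih =>
    have h := leak_mul cl (τ := σ ^ k) hσ (pow_mem hA k) hA
    rw [← pow_succ', ← pow_succ] at h
    push_cast
    constructor
    · linarith [h.1, ih.1]
    · have h1 := mul_le_mul_of_nonneg_right ih.1 h0
      nlinarith [h.2, ih.2, sq_nonneg (leak cl σ A)]

lemma E_mul_apply {σ : Equiv.Perm X} (hσ : Resp cl σ) {Z : Matrix X X ℝ} (hZ : Pat cl σ Z)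
    (x y : X) : (E cl * Z) x y = E cl x (σ.symm y) * ∑ z, Z z y := by
  rw [Matrix.mul_apply, Finset.mul_sum]
  refine Finset.sum_congr rfl fun z _ => ?_
  by_cases h : cl y = cl (σ z)
  · have : cl (σ.symm y) = cl z := (hσ _ _).1 (by simpa using h)
    simp [E, this]
  · rw [hZ z y h, mul_zero, mul_zero]

lemma mul_E_apply' {σ : Equiv.Perm X} {Z : Matrix X X ℝ} (hZ : Pat cl σ Z)
    (x y : X) : (Z * E cl) x y = (∑ z, Z x z) * E cl (σ x) y := by
  rw [Matrix.mul_apply, Finset.sum_mul]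
  refine Finset.sum_congr rfl fun z _ => ?_
  by_cases h : cl z = cl (σ x)
  · simp [E, h]
  · rw [hZ x z h, zero_mul, zero_mul]

/-- decomposition of a doubly stochastic matrix near `F σ` -/
lemma decomp {σ : Equiv.Perm X} (hσ : Resp cl σ) {A : Matrix X X ℝ}
    (hA : A ∈ doublyStochastic ℝ X) : ∃ W : Matrix X X ℝ, Pat cl σ W ∧ E cl * W = 0 ∧
      W * E cl = 0 ∧ N1 W ≤ 4 * N1 (A - F cl σ) ∧ N1 (A - (F cl σ + W)) ≤ 4 * leak cl σ A := by
  let O : Matrix X X ℝ := fun x y => if cl y = cl (σ x) then 0 else A x y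
  let Z : Matrix X X ℝ := A - O - F cl σ
  have hO0 : ∀ x y, 0 ≤ O x y := fun x y => by
    simp only [O]; split_ifs
    · exact le_rfl
    · exact nonneg_of_mem_doublyStochastic hA
  have hZ : Pat cl σ Z := by
    intro x y h
    simp [Z, O, h, F_pat cl σ x y h]
  have hEE : E cl * E cl = E cl := by
    have := F_mul cl 1 1 (resp_one cl)
    simpa [F_one] using this
  have hP1 : Pat cl 1 (1 - E cl) := (pat_one cl).sub cl (F_pat cl 1)
  have hNO : N1 O = leak cl σ A :=
    Finset.sum_congr rfl fun x _ => Finset.sum_congr rfl fun y _ => abs_of_nonneg (hO0 x y)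
  have hNZ : N1 Z ≤ N1 (A - F cl σ) := by
    refine Finset.sum_le_sum fun x _ => Finset.sum_le_sum fun y _ => ?_
    by_cases h : cl y = cl (σ x)
    · simp [Z, O, h]
    · rw [hZ x y h]; simp
  have hL : ∀ M : Matrix X X ℝ, N1 ((1 - E cl) * M) ≤ 2 * N1 M := by
    intro M
    rw [sub_mul, one_mul]
    linarith [N1_sub M (E cl * M), N1_ds_mul M _ (E_ds cl)]
  have hR : ∀ M : Matrix X X ℝ, N1 (M * (1 - E cl)) ≤ 2 * N1 M := by
    intro M
    rw [mul_sub, mul_one]
    linarith [N1_sub M (M * E cl), N1_mul_ds M _ (E_ds cl)]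
  have hE0 : ∀ x y, 0 ≤ E cl x y := fun _ _ => nonneg_of_mem_doublyStochastic (E_ds cl)
  have hEZ : N1 (E cl * Z) ≤ leak cl σ A := by
    rw [← hNO]
    unfold N1
    rw [Finset.sum_comm, Finset.sum_comm (f := fun x y => |O x y|)]
    refine Finset.sum_le_sum fun y _ => ?_
    have h1 : ∑ z, Z z y = -∑ z, O z y := by
      simp only [Z, Matrix.sub_apply, Finset.sum_sub_distrib]
      rw [sum_col_of_mem_doublyStochastic hA, sum_col_of_mem_doublyStochastic (F_ds cl σ)]
      ring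
    simp only [E_mul_apply cl hσ hZ, abs_mul, abs_of_nonneg (hE0 _ _)]
    rw [← Finset.sum_mul, sum_col_of_mem_doublyStochastic (E_ds cl), one_mul, h1, abs_neg]
    exact Finset.abs_sum_le_sum_abs _ _
  have hZE : N1 (Z * E cl) ≤ leak cl σ A := by
    rw [← hNO]
    unfold N1
    refine Finset.sum_le_sum fun x _ => ?_
    have h1 : ∑ z, Z x z = -∑ z, O x z := by
      simp only [Z, Matrix.sub_apply, Finset.sum_sub_distrib]
      rw [sum_row_of_mem_doublyStochastic hA, sum_row_of_mem_doublyStochastic (F_ds cl σ)]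
      ring
    simp only [mul_E_apply' cl hZ, abs_mul, abs_of_nonneg (hE0 _ _)]
    rw [← Finset.mul_sum, sum_row_of_mem_doublyStochastic (E_ds cl), mul_one, h1, abs_neg]
    exact Finset.abs_sum_le_sum_abs _ _
  refine ⟨(1 - E cl) * Z * (1 - E cl), ?_, ?_, ?_, ?_, ?_⟩
  · have := ((hP1.mul cl hZ hσ).mul cl hP1 (resp_one cl))
    simpa using this
  · rw [← mul_assoc, ← mul_assoc, mul_sub (E cl) (1 : Matrix X X ℝ) (E cl), hEE]; simp
  · rw [mul_assoc, sub_mul (1 : Matrix X X ℝ) (E cl) (E cl), hEE]; simp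
  · linarith [hR ((1 - E cl) * Z), hL Z]
  · have : A - (F cl σ + (1 - E cl) * Z * (1 - E cl)) =
        O + (E cl * Z + (1 - E cl) * (Z * E cl)) := by
      have h1 : A = O + F cl σ + Z := by simp only [Z]; abel
      calc A - (F cl σ + (1 - E cl) * Z * (1 - E cl))
          = O + F cl σ + Z - (F cl σ + (1 - E cl) * Z * (1 - E cl)) := by rw [← h1]
        _ = _ := by noncomm_ring
    rw [this]
    linarith [N1_add O (E cl * Z + (1 - E cl) * (Z * E cl)),
      N1_add (E cl * Z) ((1 - E cl) * (Z * E cl)), hL (Z * E cl)]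

theorem local_ineq [Nonempty X] {σ : Equiv.Perm X} (hσ : Resp cl σ) : ∃ δ > 0, δ ≤ 1 / 4 ∧
    ∀ A ∈ doublyStochastic ℝ X, ∀ k : ℕ, 2 ≤ k → N1 (A - F cl σ) ≤ δ → k * leak cl σ A ≤ δ →
      (A ^ k).permanent ≤ A.permanent := by
  have hP := per_E_pos cl
  have hn : (1 : ℝ) ≤ Fintype.card X := by exact_mod_cast Fintype.card_pos
  set n : ℝ := (Fintype.card X : ℝ) with hndef
  set P := (E cl).permanent with hPdef
  obtain ⟨δ0, hδ0, hexp⟩ := expand cl (P / (32 * n ^ 3)) (by positivity)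
  refine ⟨min (δ0 / 8) (1 / (4 * n)), by positivity, ?_, fun A hA k hk h1 h2 => ?_⟩
  · refine (min_le_right _ _).trans ?_
    apply one_div_le_one_div_of_le (by norm_num); linarith
  have hδ1 : min (δ0 / 8) (1 / (4 * n)) ≤ δ0 / 8 := min_le_left _ _
  have hδ2 : min (δ0 / 8) (1 / (4 * n)) ≤ 1 / (4 * n) := min_le_right _ _
  have hδ3 : 1 / (4 * n) ≤ 1 / 4 := by
    apply one_div_le_one_div_of_le (by norm_num); linarith
  obtain ⟨W, hWp, hEW, hWE, hW1, hW2⟩ := decomp cl hσ hA
  have hε := leak_nonneg cl σ hA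
  set ε := leak cl σ A with hεdef
  have hw0 := N1_nonneg W
  have hwn : N1 W ≤ 1 / n := by
    have : 4 * (1 / (4 * n)) = 1 / n := by field_simp
    linarith
  have hw1 : N1 W ≤ 1 := hwn.trans (by rw [div_le_one (by linarith)]; exact hn)
  have hE1 : E cl *ᵥ 1 = 1 := mulVec_one_of_mem_doublyStochastic (E_ds cl)
  have hE2 : 1 ᵥ* E cl = 1 := one_vecMul_of_mem_doublyStochastic (E_ds cl)
  have hA0 : F cl σ + W ∈ doublyStochastic ℝ X := by
    rw [mem_doublyStochastic]
    refine ⟨fun x y => ?_, ?_, ?_⟩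
    · by_cases h : cl y = cl (σ x)
      · have h3 : F cl σ x y = 1 / sz cl (cl (σ x)) := if_pos h
        have h4 : 1 / n ≤ 1 / (sz cl (cl (σ x)) : ℝ) := by
          apply one_div_le_one_div_of_le
          · exact_mod_cast sz_pos cl _
          · rw [hndef]; exact_mod_cast sz_le cl _
        have h5 := abs_le_N1 W x y
        have h6 := neg_abs_le (W x y)
        rw [Matrix.add_apply, h3]
        linarith
      · rw [Matrix.add_apply, F_pat cl σ x y h, hWp x y h]; simp
    · rw [Matrix.add_mulVec, mulVec_one_of_mem_doublyStochastic (F_ds cl σ), ← hE1,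
        Matrix.mulVec_mulVec, hWE]
      simp
    · rw [Matrix.vecMul_add, one_vecMul_of_mem_doublyStochastic (F_ds cl σ), ← hE2,
        Matrix.vecMul_vecMul, hEW]
      simp
  have hFE : ∀ τ, F cl τ * E cl = F cl τ := fun τ => by
    have := F_mul cl τ 1 (resp_one cl)
    simpa [F_one] using this
  have hEF : E cl * F cl σ = F cl σ := by
    have := F_mul cl 1 σ hσ
    simpa [F_one] using this
  have hpow : ∀ j : ℕ, (F cl σ + W) ^ (j + 1) = F cl (σ ^ (j + 1)) + W ^ (j + 1) := by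
    intro j
    induction j with
    | zero => simp
    | succ j ih =>
      have e1 : F cl (σ ^ (j + 1)) * W = 0 := by rw [← hFE, mul_assoc, hEW, mul_zero]
      have e2 : W ^ (j + 1) * F cl σ = 0 := by
        rw [← hEF, pow_succ, mul_assoc, ← mul_assoc W, hWE, zero_mul, mul_zero]
      rw [pow_succ, ih, add_mul, mul_add, mul_add, e1, e2, F_mul cl _ _ hσ, ← pow_succ',
        ← pow_succ]
      simp
  obtain ⟨j, rfl⟩ : ∃ j, k = j + 2 := ⟨k - 2, by omega⟩
  have hk2 : (2 : ℝ) ≤ ((j + 2 : ℕ) : ℝ) := by exact_mod_cast hk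
  set k : ℝ := ((j + 2 : ℕ) : ℝ) with hkdef
  have hWk : N1 (W ^ (j + 2)) ≤ N1 W ^ 2 := by
    refine (N1_pow W (j + 1)).trans ?_
    exact pow_le_pow_of_le_one hw0 hw1 (by omega)
  have hWk' : N1 (W ^ (j + 2)) ≤ N1 W := by nlinarith
  have hM0 : (F cl σ + W) ^ (j + 2) - F cl (σ ^ (j + 2)) = W ^ (j + 2) := by
    rw [hpow (j + 1)]; simp
  have hM1 : N1 (A ^ (j + 2) - (F cl σ + W) ^ (j + 2)) ≤ k * (4 * ε) :=
    (N1_pow_sub A _ hA hA0 (j + 2)).trans (mul_le_mul_of_nonneg_left hW2 (by linarith))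
  have hM2 : N1 (A ^ (j + 2) - F cl (σ ^ (j + 2))) ≤ δ0 := by
    have : A ^ (j + 2) - F cl (σ ^ (j + 2)) =
        (A ^ (j + 2) - (F cl σ + W) ^ (j + 2)) + W ^ (j + 2) := by rw [← hM0]; abel
    rw [this]
    linarith [N1_add (A ^ (j + 2) - (F cl σ + W) ^ (j + 2)) (W ^ (j + 2))]
  have hp0 : Pat cl σ (F cl σ + W) := (F_pat cl σ).add cl hWp
  have x1 := hexp σ A (F cl σ + W) hA hA0 (by linarith) (by simp; linarith)
  have x2 := hexp (σ ^ (j + 2)) _ _ (pow_mem hA (j + 2)) (pow_mem hA0 (j + 2)) hM2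
    (by rw [hM0]; linarith)
  have x3 := hexp (σ ^ (j + 2)) _ _ (pow_mem hA0 (j + 2)) (F_ds cl (σ ^ (j + 2)))
    (by rw [hM0]; linarith) (by simp [N1]; linarith)
  rw [leak_pat cl hp0] at x1
  rw [leak_pat cl (hp0.pow cl hσ _)] at x2 x3
  rw [leak_pat cl (F_pat cl _), per_F, hM0] at x3
  have x4 := low cl σ _ hA0 hp0
  have x5 := N1_sq W
  have x6 := (leak_pow cl hσ hA (j + 2)).2
  simp only [add_sub_cancel_left] at x4
  rw [← hPdef, ← hndef] at x4
  rw [← hndef] at x5
  rw [← hεdef, ← hkdef] at x6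
  rw [← hεdef] at x1
  set S := ∑ x, ∑ y, W x y ^ 2
  set η := P / (32 * n ^ 3) with hη
  have hη0 : 0 < η := by positivity
  have hη1 : η ≤ P / 32 := by
    apply div_le_div_of_nonneg_left hP.le (by norm_num)
    nlinarith [one_le_pow₀ (n := 3) hn]
  have y1 := (abs_le.1 x1).1
  have y2 := (abs_le.1 x2).2
  have y3 := (abs_le.1 x3).2
  have z1 : η * N1 (W ^ (j + 2)) ≤ P * (S / (4 * n)) := by
    have hS : 0 ≤ S := Finset.sum_nonneg fun _ _ => Finset.sum_nonneg fun _ _ => sq_nonneg _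
    calc η * N1 (W ^ (j + 2)) ≤ η * (n ^ 2 * S) :=
          mul_le_mul_of_nonneg_left (hWk.trans x5) hη0.le
      _ = P * (S / (4 * n)) / 8 := by rw [hη]; field_simp; ring
      _ ≤ _ := by
          have : 0 ≤ P * (S / (4 * n)) := by positivity
          linarith
  have z2 : η * N1 (A - (F cl σ + W)) ≤ η * (4 * ε) := mul_le_mul_of_nonneg_left hW2 hη0.le
  have z3 := mul_le_mul_of_nonneg_left hM1 hη0.le
  have hkε : k * ε ≤ 1 / 4 := by linarith
  have hkε0 : 0 ≤ k * ε := by positivity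
  have z4 : ε ≤ k * ε / 2 := by nlinarith
  have z5 : 3 / 4 * (k * ε) ≤ leak cl (σ ^ (j + 2)) (A ^ (j + 2)) := by nlinarith
  have z6 := mul_le_mul_of_nonneg_left z5 hP.le
  have z7 := mul_le_mul_of_nonneg_left z4 hP.le
  have z8 := mul_le_mul_of_nonneg_right hη1 hkε0
  have z9 := mul_le_mul_of_nonneg_left z4 hη0.le
  have z10 := mul_nonneg hP.le hkε0
  nlinarith

end Pool.Agent.H427Z.Perm
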