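import Pool.Agent.H427Z.PermC

set_option autoImplicit false
set_option linter.unusedSectionVars false
open scoped BigOperators
open Matrix Filter Topology

namespace Pool.Agent.H427Z.Perm

variable {X : Type} [Fintype X] [DecidableEq X]

/-- squared Euclidean norm -/
def Q (v : X → ℝ) : ℝ := ∑ x, v x ^ 2

lemma Q_nonneg (v : X → ℝ) : 0 ≤ Q v := Finset.sum_nonneg fun _ _ => sq_nonneg _

lemma Q_sub {D : Matrix X X ℝ} (hD : D ∈ doublyStochastic ℝ X) (v : X → ℝ) :
    2 * (Q v - Q (D *ᵥ v)) = ∑ x, ∑ y, ∑ y', D x y * D x y' * (v y - v y') ^ 2 := by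
  have h1 : Q v = ∑ x, ∑ y, D x y * v y ^ 2 := by
    rw [Finset.sum_comm]
    refine Finset.sum_congr rfl fun y _ => ?_
    rw [← Finset.sum_mul, sum_col_of_mem_doublyStochastic hD, one_mul]
  rw [h1, Q, ← Finset.sum_sub_distrib, Finset.mul_sum]
  refine Finset.sum_congr rfl fun x _ => ?_
  have h2 := sum_row_of_mem_doublyStochastic hD x
  have h3 : ∀ y y', D x y * D x y' * (v y - v y') ^ 2 =
      (D x y * v y ^ 2) * D x y' + D x y * (D x y' * v y' ^ 2) -
        2 * ((D x y * v y) * (D x y' * v y')) := by intro y y'; ring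
  simp only [h3, Finset.sum_sub_distrib, Finset.sum_add_distrib, ← Finset.mul_sum,
    ← Finset.sum_mul, h2]
  simp only [Matrix.mulVec, dotProduct]
  ring

lemma Q_le {D : Matrix X X ℝ} (hD : D ∈ doublyStochastic ℝ X) (v : X → ℝ) : Q (D *ᵥ v) ≤ Q v := by
  have h := Q_sub hD v
  have : 0 ≤ ∑ x, ∑ y, ∑ y', D x y * D x y' * (v y - v y') ^ 2 :=
    Finset.sum_nonneg fun _ _ => Finset.sum_nonneg fun _ _ => Finset.sum_nonneg fun _ _ =>
      mul_nonneg (mul_nonneg (nonneg_of_mem_doublyStochastic hD)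
        (nonneg_of_mem_doublyStochastic hD)) (sq_nonneg _)
  linarith

lemma Q_eq_iff {D : Matrix X X ℝ} (hD : D ∈ doublyStochastic ℝ X) (v : X → ℝ) :
    Q (D *ᵥ v) = Q v ↔ ∀ x y y', D x y ≠ 0 → D x y' ≠ 0 → v y = v y' := by
  have h := Q_sub hD v
  have h0 : ∀ x y y', 0 ≤ D x y * D x y' * (v y - v y') ^ 2 := fun _ _ _ =>
    mul_nonneg (mul_nonneg (nonneg_of_mem_doublyStochastic hD)
      (nonneg_of_mem_doublyStochastic hD)) (sq_nonneg _)
  constructor
  · intro he x y y' h1 h2
    rw [he, sub_self, mul_zero] at h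
    have a1 := (Finset.sum_eq_zero_iff_of_nonneg (fun x _ => Finset.sum_nonneg fun y _ =>
      Finset.sum_nonneg fun y' _ => h0 x y y')).1 h.symm x (Finset.mem_univ _)
    have a2 := (Finset.sum_eq_zero_iff_of_nonneg (fun y _ =>
      Finset.sum_nonneg fun y' _ => h0 x y y')).1 a1 y (Finset.mem_univ _)
    have a3 := (Finset.sum_eq_zero_iff_of_nonneg (fun y' _ => h0 x y y')).1 a2 y'
      (Finset.mem_univ _)
    have a4 := (mul_eq_zero.1 a3).resolve_left (mul_ne_zero h1 h2)
    exact sub_eq_zero.1 (pow_eq_zero_iff two_ne_zero |>.1 a4)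
  · intro hv
    have : ∑ x, ∑ y, ∑ y', D x y * D x y' * (v y - v y') ^ 2 = 0 := by
      refine Finset.sum_eq_zero fun x _ => Finset.sum_eq_zero fun y _ =>
        Finset.sum_eq_zero fun y' _ => ?_
      by_cases h1 : D x y = 0
      · simp [h1]
      by_cases h2 : D x y' = 0
      · simp [h2]
      simp [hv x y y' h1 h2]
    linarith

lemma Q_pow_anti {A : Matrix X X ℝ} (hA : A ∈ doublyStochastic ℝ X) (v : X → ℝ) :
    Antitone fun r : ℕ => Q (A ^ r *ᵥ v) := by
  refine antitone_nat_of_succ_le fun r => ?_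
  rw [pow_succ', ← Matrix.mulVec_mulVec]
  exact Q_le hA _

lemma Q_cont : Continuous (Q : (X → ℝ) → ℝ) := by unfold Q; fun_prop

lemma ds_limit (f : ℕ → Matrix X X ℝ) (hf : ∀ k, f k ∈ doublyStochastic ℝ X) :
    ∃ D ∈ doublyStochastic ℝ X, Tendsto f (hyperfilter ℕ) (𝓝 D) := by
  have hc : IsCompact (doublyStochastic ℝ X : Set (Matrix X X ℝ)) := by
    rw [doublyStochastic_eq_convexHull_permMatrix]
    exact Set.Finite.isCompact_convexHull ℝ (Set.finite_range _)
  obtain ⟨D, hD, h⟩ := hc.ultrafilter_le_nhds ((hyperfilter ℕ).map f) (by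
    rw [Ultrafilter.coe_map, le_principal_iff, mem_map]
    exact Eventually.of_forall hf)
  exact ⟨D, hD, h⟩

section classes
variable {ι : Type} [Fintype ι] [DecidableEq ι] (cl : X → ι)

/-- indicator of a class -/
def ind (b : ι) : X → ℝ := fun y => if cl y = b then 1 else 0

lemma q_eq (M : Matrix X X ℝ) (x : X) (b : ι) : q cl M x b = (M *ᵥ ind cl b) x := by
  simp [q, ind, Matrix.mulVec, dotProduct]

lemma q_nonneg {M : Matrix X X ℝ} (hM : M ∈ doublyStochastic ℝ X) (x : X) (b : ι) :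
    0 ≤ q cl M x b := Finset.sum_nonneg fun y _ => by
  split_ifs
  · exact nonneg_of_mem_doublyStochastic hM
  · exact le_rfl

lemma q_sum {M : Matrix X X ℝ} (hM : M ∈ doublyStochastic ℝ X) (x : X) :
    ∑ b, q cl M x b = 1 := by rw [sum_q, sum_row_of_mem_doublyStochastic hM]

lemma q_le_one {M : Matrix X X ℝ} (hM : M ∈ doublyStochastic ℝ X) (x : X) (b : ι) :
    q cl M x b ≤ 1 := by
  rw [← q_sum cl hM x]
  exact Finset.single_le_sum (f := fun b => q cl M x b) (fun b _ => q_nonneg cl hM x b)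
    (Finset.mem_univ b)

lemma mul_E_of_const (N : Matrix X X ℝ) (h : ∀ x y y', cl y = cl y' → N x y = N x y') :
    N * E cl = N := by
  ext x y
  rw [Matrix.mul_apply]
  have : ∀ z, N x z * E cl z y = N x y * E cl z y := by
    intro z
    by_cases hz : cl y = cl z
    · rw [h x y z hz]
    · simp [E, hz]
  simp only [this]
  rw [← Finset.mul_sum, sum_col_of_mem_doublyStochastic (E_ds cl), mul_one]

lemma E_mul_of_const (N : Matrix X X ℝ) (h : ∀ x x' y, cl x = cl x' → N x y = N x' y) :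
    E cl * N = N := by
  ext x y
  rw [Matrix.mul_apply]
  have : ∀ z, E cl x z * N z y = E cl x z * N x y := by
    intro z
    by_cases hz : cl z = cl x
    · rw [h z x y hz]
    · simp [E, hz]
  simp only [this]
  rw [← Finset.sum_mul, sum_row_of_mem_doublyStochastic (E_ds cl), one_mul]

/-- the monotone quantity -/
noncomputable def psi (M : Matrix X X ℝ) : ℝ := ∑ x, (1 - ∑ b, q cl M x b ^ 2)

lemma psi_eq (M : Matrix X X ℝ) : psi cl M = Fintype.card X - ∑ b, Q (M *ᵥ ind cl b) := by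
  unfold psi Q
  rw [Finset.sum_sub_distrib, Finset.sum_comm]
  simp [q_eq]

lemma psi_mono {A : Matrix X X ℝ} (hA : A ∈ doublyStochastic ℝ X) {k k' : ℕ} (h : k' ≤ k) :
    psi cl (A ^ k') ≤ psi cl (A ^ k) := by
  rw [psi_eq, psi_eq]
  have := Finset.sum_le_sum (s := Finset.univ) fun b _ => Q_pow_anti hA (ind cl b) h
  linarith

lemma psi_ge {M : Matrix X X ℝ} (hM : M ∈ doublyStochastic ℝ X) (τ : Equiv.Perm X) :
    (1 - leak cl τ M) * leak cl τ M ≤ psi cl M := by
  have h0 : ∀ x, 0 ≤ ∑ y, if cl y = cl (τ x) then 0 else M x y := fun x =>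
    Finset.sum_nonneg fun y _ => by
      split_ifs
      · exact le_rfl
      · exact nonneg_of_mem_doublyStochastic hM
  unfold psi
  conv_lhs => rw [leak, Finset.mul_sum]
  refine Finset.sum_le_sum fun x _ => ?_
  set l := ∑ y, if cl y = cl (τ x) then 0 else M x y with hl
  have h1 : l ≤ leak cl τ M := Finset.single_le_sum
    (f := fun x => ∑ y, if cl y = cl (τ x) then 0 else M x y) (fun x _ => h0 x) (Finset.mem_univ x)
  have h2 : q cl M x (cl (τ x)) = 1 - l := by
    rw [← sum_row_of_mem_doublyStochastic hM x, hl, ← Finset.sum_sub_distrib]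
    exact Finset.sum_congr rfl fun y _ => by split_ifs <;> simp
  have h3 := q_sum cl hM x
  rw [← Finset.add_sum_erase _ _ (Finset.mem_univ (cl (τ x)))] at h3 ⊢
  have h4 : ∑ b ∈ Finset.univ.erase (cl (τ x)), q cl M x b ^ 2 ≤
      ∑ b ∈ Finset.univ.erase (cl (τ x)), q cl M x b := Finset.sum_le_sum fun b _ => by
    nlinarith [q_nonneg cl hM x b, q_le_one cl hM x b]
  have h5 := h0 x
  rw [← hl] at h5
  rw [h2] at h3 ⊢
  rw [← leak]
  nlinarith

end classes

theorem structure_thm {A : Matrix X X ℝ} (hA : A ∈ doublyStochastic ℝ X) :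
    ∃ (cl : X → Finset X) (σ : Equiv.Perm X), Resp cl σ ∧ Pat cl σ A ∧
      ∀ u : X → ℝ, Tendsto (fun r : ℕ => Q (A ^ r *ᵥ ((1 - E cl) *ᵥ u))) (hyperfilter ℕ) (𝓝 0) := by
  classical
  let Wp : (X → ℝ) → Prop := fun v => ∀ r : ℕ, Q (A ^ r *ᵥ v) = Q v
  let cl : X → Finset X := fun y => Finset.univ.filter fun y' => ∀ v, Wp v → v y = v y'
  have hcl : ∀ y y', cl y = cl y' ↔ ∀ v, Wp v → v y = v y' := by
    intro y y'
    constructor
    · intro h
      have : y' ∈ cl y := by rw [h]; simp [cl]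
      simpa [cl] using this
    · intro h
      ext z
      simp only [cl, Finset.mem_filter, Finset.mem_univ, true_and]
      exact forall_congr' fun v => forall_congr' fun hv => by rw [h v hv]
  have ha : ∀ v : X → ℝ, (∀ y y', cl y = cl y' → v y = v y') → Wp v := by
    intro v hv r
    rw [Q_eq_iff (pow_mem hA r)]
    intro x y y' h1 h2
    refine hv y y' ((hcl y y').2 fun w hw => ?_)
    exact (Q_eq_iff (pow_mem hA r) w).1 (hw r) x y y' h1 h2
  have hb : ∀ v, Wp v → Wp (A *ᵥ v) := by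
    intro v hv r
    rw [Matrix.mulVec_mulVec, ← pow_succ, hv]
    have := hv 1
    rw [pow_one] at this
    exact this.symm
  have hind : ∀ b, Wp (ind cl b) := fun b => ha _ fun y y' h => by simp [ind, h]
  have hqs : ∀ b, ∑ x, q cl A x b = sz cl b := by
    intro b
    simp only [q_eq]
    rw [sum_mulVec_of_mem_doublyStochastic hA]
    exact sum_ind cl b
  have h01 : ∀ x b, q cl A x b * (1 - q cl A x b) = 0 := by
    intro x b
    have h1 := hind b 1
    rw [pow_one] at h1
    have h2 : Q (ind cl b) = sz cl b := by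
      rw [← sum_ind]
      exact Finset.sum_congr rfl fun y _ => by unfold ind; split_ifs <;> simp
    have h3 : ∑ x, q cl A x b * (1 - q cl A x b) = 0 := by
      simp only [mul_sub, mul_one, Finset.sum_sub_distrib, hqs, ← sq]
      simp only [q_eq]
      rw [← h2, ← h1]
      simp [Q]
    exact (Finset.sum_eq_zero_iff_of_nonneg fun x _ => mul_nonneg (q_nonneg cl hA x b)
      (sub_nonneg.2 (q_le_one cl hA x b))).1 h3 x (Finset.mem_univ _)
  have hex : ∀ x, ∃ b, q cl A x b = 1 := by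
    intro x
    by_contra h
    push Not at h
    have h1 := q_sum cl hA x
    rw [Finset.sum_eq_zero fun b _ => (mul_eq_zero.1 (h01 x b)).resolve_right
      fun e => h b (by linarith)] at h1
    exact zero_ne_one h1
  choose ρ hρ using hex
  have hρ0 : ∀ x b, b ≠ ρ x → q cl A x b = 0 := by
    intro x b hb
    have h1 := q_sum cl hA x
    rw [← Finset.add_sum_erase _ _ (Finset.mem_univ (ρ x)), hρ] at h1
    exact (Finset.sum_eq_zero_iff_of_nonneg fun b _ => q_nonneg cl hA x b).1
      (by linarith) b (Finset.mem_erase.2 ⟨hb, Finset.mem_univ _⟩)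
  have hcard : ∀ b, Fintype.card {x // ρ x = b} = Fintype.card {x // cl x = b} := by
    intro b
    have h1 := sum_ind ρ b
    have h2 : ∑ x, (if ρ x = b then (1 : ℝ) else 0) = ∑ x, q cl A x b := by
      refine Finset.sum_congr rfl fun x _ => ?_
      split_ifs with h
      · rw [← h, hρ]
      · rw [hρ0 x b (fun e => h e.symm)]
    rw [h2, hqs] at h1
    exact_mod_cast h1.symm
  let σ : Equiv.Perm X := Equiv.ofFiberEquiv (f := ρ) (g := cl)
    fun b => Fintype.equivOfCardEq (hcard b)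
  have hσ : ∀ x, cl (σ x) = ρ x := fun x => Equiv.ofFiberEquiv_map _ x
  have hmono : ∀ x x', cl x = cl x' → cl (σ x) = cl (σ x') := by
    intro x x' h
    rw [hσ, hσ]
    by_contra hne
    have h1 := (hcl x x').1 h _ (hb _ (hind (ρ x)))
    rw [← q_eq, ← q_eq, hρ, hρ0 x' _ hne] at h1
    exact one_ne_zero h1
  have hmonop : ∀ k : ℕ, ∀ x x', cl x = cl x' → cl ((σ ^ k) x) = cl ((σ ^ k) x') := by
    intro k
    induction k with
    | zero => intro x x' h; simpa using h
    | succ k ih =>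
      intro x x' h
      rw [pow_succ', Equiv.Perm.mul_apply, Equiv.Perm.mul_apply]
      exact hmono _ _ (ih x x' h)
  have hresp : Resp cl σ := by
    intro x x'
    refine ⟨fun h => ?_, hmono x x'⟩
    have h1 := hmonop (orderOf σ - 1) _ _ h
    have h2 : σ ^ (orderOf σ - 1) * σ = 1 := by
      rw [← pow_succ, Nat.sub_add_cancel (orderOf_pos σ), pow_orderOf_eq_one]
    rwa [← Equiv.Perm.mul_apply, ← Equiv.Perm.mul_apply, h2] at h1
  have hpat : Pat cl σ A := by
    intro x y h
    rw [hσ] at h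
    have h1 := hρ0 x _ h
    have h2 := (Finset.sum_eq_zero_iff_of_nonneg fun y' _ => by
      split_ifs
      · exact nonneg_of_mem_doublyStochastic hA
      · exact le_rfl).1 h1 y (Finset.mem_univ _)
    simpa using h2
  refine ⟨cl, σ, hresp, hpat, fun u => ?_⟩
  obtain ⟨D, -, hD⟩ := ds_limit (fun r => A ^ r) (fun r => pow_mem hA r)
  have hlim : ∀ (s : ℕ) (v : X → ℝ), Tendsto (fun r : ℕ => Q (A ^ s *ᵥ (A ^ r *ᵥ v)))
      (hyperfilter ℕ) (𝓝 (Q (A ^ s *ᵥ (D *ᵥ v)))) := by
    intro s v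
    have hc : Continuous fun M : Matrix X X ℝ => Q (A ^ s *ᵥ (M *ᵥ v)) :=
      Q_cont.comp (continuous_const.matrix_mulVec (continuous_id.matrix_mulVec continuous_const))
    exact (hc.tendsto D).comp hD
  have hDW : ∀ v, Wp (D *ᵥ v) := by
    intro v s
    have h1 := tendsto_atTop_ciInf (Q_pow_anti hA v) ⟨0, by rintro _ ⟨r, rfl⟩; exact Q_nonneg _⟩
    have h2 : ∀ s : ℕ, Q (A ^ s *ᵥ (D *ᵥ v)) = ⨅ r : ℕ, Q (A ^ r *ᵥ v) := by
      intro s
      refine tendsto_nhds_unique (hlim s v) ?_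
      have h3 := ((tendsto_add_atTop_iff_nat s).2 h1).mono_left Nat.hyperfilter_le_atTop
      refine h3.congr fun r => ?_
      rw [Matrix.mulVec_mulVec, ← pow_add, add_comm]
    have h3 := h2 0
    rw [pow_zero, Matrix.one_mulVec] at h3
    rw [h2 s, h3]
  have hED : E cl * D = D := E_mul_of_const cl D fun x x' y h => by
    have := (hcl x x').1 h _ (hDW (Pi.single y 1))
    simpa using this
  have hEA : ∀ r : ℕ, E cl * A ^ r * (1 - E cl) = 0 := by
    intro r
    rw [mul_sub, mul_one, mul_E_of_const cl (E cl * A ^ r), sub_self]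
    intro x y y' h
    rw [E_mul_apply cl (hresp.pow cl r) (hpat.pow cl hresp r),
      E_mul_apply cl (hresp.pow cl r) (hpat.pow cl hresp r),
      sum_col_of_mem_doublyStochastic (pow_mem hA r), sum_col_of_mem_doublyStochastic (pow_mem hA r)]
    have : cl ((σ ^ r).symm y) = cl ((σ ^ r).symm y') := (hresp.pow cl r _ _).1 (by simpa using h)
    simp [E, this]
  have hD0 : D * (1 - E cl) = 0 := by
    rw [← hED]
    have hc : Continuous fun M : Matrix X X ℝ => E cl * M * (1 - E cl) :=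
      (continuous_const.matrix_mul continuous_id).matrix_mul continuous_const
    refine tendsto_nhds_unique ((hc.tendsto D).comp hD) ?_
    exact tendsto_const_nhds.congr fun r => (hEA r).symm
  have h := hlim 0 ((1 - E cl) *ᵥ u)
  rw [Matrix.mulVec_mulVec u D, hD0] at h
  simpa [Q] using h

theorem foregger [Nonempty X] : ∃ k : ℕ, 2 ≤ k ∧ ∀ A ∈ doublyStochastic ℝ X,
    (A ^ k).permanent ≤ A.permanent := by
  by_contra hcon
  push Not at hcon
  choose! f hf hlt using hcon
  have hf' : ∀ k, f (k + 2) ∈ doublyStochastic ℝ X := fun k => hf _ (by omega)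
  obtain ⟨A, hA, hlimA⟩ := ds_limit (fun k => f (k + 2)) hf'
  obtain ⟨L, hL, hlimL⟩ := ds_limit (fun k => f (k + 2) ^ (k + 2)) fun k => pow_mem (hf' k) _
  obtain ⟨cl, σ, hσ, hpat, hdec⟩ := structure_thm hA
  have hLE : L * E cl = L := by
    have h1 : ∀ u, L *ᵥ ((1 - E cl) *ᵥ u) = 0 := by
      intro u
      set w := (1 - E cl) *ᵥ u
      have h2 : ∀ r : ℕ, Q (L *ᵥ w) ≤ Q (A ^ r *ᵥ w) := by
        intro r
        have c1 : Continuous fun M : Matrix X X ℝ => Q (M *ᵥ w) :=
          Q_cont.comp (continuous_id.matrix_mulVec continuous_const)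
        have c2 : Continuous fun M : Matrix X X ℝ => Q (M ^ r *ᵥ w) :=
          c1.comp (continuous_pow r)
        refine le_of_tendsto_of_tendsto ((c1.tendsto L).comp hlimL) ((c2.tendsto A).comp hlimA) ?_
        filter_upwards [Nat.hyperfilter_le_atTop (eventually_ge_atTop r)] with k hk
        exact Q_pow_anti (hf' k) w (show r ≤ k + 2 by omega)
      have h3 : Q (L *ᵥ w) ≤ 0 := ge_of_tendsto' (hdec u) h2
      funext x
      have h4 := (Finset.sum_eq_zero_iff_of_nonneg fun x _ => sq_nonneg ((L *ᵥ w) x)).1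
        (le_antisymm h3 (Q_nonneg _)) x (Finset.mem_univ _)
      exact pow_eq_zero_iff two_ne_zero |>.1 h4
    have h2 : L * (1 - E cl) = 0 := by
      ext x y
      have := congrFun (h1 (Pi.single y 1)) x
      rw [Matrix.mulVec_mulVec] at this
      simpa using this
    rw [mul_sub, mul_one, sub_eq_zero] at h2
    exact h2.symm
  have cper : Continuous fun M : Matrix X X ℝ => M.permanent := by
    unfold Matrix.permanent
    exact continuous_finsetSum _ fun σ _ => continuous_finsetProd _ fun i _ =>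
      continuous_id.matrix_elem _ _
  have hAL : A.permanent ≤ L.permanent :=
    le_of_tendsto_of_tendsto' ((cper.tendsto A).comp hlimA) ((cper.tendsto L).comp hlimL)
      fun k => (hlt (k + 2) (by omega)).le
  have hlow := low cl σ A hA hpat
  obtain ⟨hup1, hup2⟩ := upper cl L hL hLE
  have hP := per_E_pos cl
  have hn : (0 : ℝ) < Fintype.card X := by exact_mod_cast Fintype.card_pos
  have hS0 : 0 ≤ ∑ x, ∑ y, (A - F cl σ) x y ^ 2 :=
    Finset.sum_nonneg fun _ _ => Finset.sum_nonneg fun _ _ => sq_nonneg _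
  have hS1 : 0 ≤ (∑ x, ∑ y, (A - F cl σ) x y ^ 2) / (4 * Fintype.card X) := by positivity
  have hS2 : (∑ x, ∑ y, (A - F cl σ) x y ^ 2) / (4 * Fintype.card X) ≤ 0 := by nlinarith
  have hS3 : ∑ x, ∑ y, (A - F cl σ) x y ^ 2 ≤ 0 := by
    rwa [div_nonpos_iff, or_iff_right (by rintro ⟨_, h⟩; linarith), and_iff_left (by positivity)]
      at hS2
  have hN0 : N1 (A - F cl σ) = 0 := by
    have := N1_sq (A - F cl σ)
    have h2 : N1 (A - F cl σ) ^ 2 ≤ 0 := this.trans (by nlinarith [sq_nonneg (Fintype.card X : ℝ)])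
    exact pow_eq_zero_iff two_ne_zero |>.1 (le_antisymm h2 (sq_nonneg _))
  have hψ : psi cl L = 0 := by
    have := hup2 (by nlinarith)
    simp [psi, this]
  obtain ⟨δ, hδ, hδ4, hloc⟩ := local_ineq cl hσ
  have c1 : Continuous fun M : Matrix X X ℝ => N1 (M - F cl σ) := by
    unfold N1
    exact continuous_finsetSum _ fun x _ => continuous_finsetSum _ fun y _ =>
      ((continuous_id.sub continuous_const).matrix_elem x y).abs
  have c2 : Continuous fun M : Matrix X X ℝ => leak cl σ M := by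
    unfold leak
    refine continuous_finsetSum _ fun x _ => continuous_finsetSum _ fun y _ => ?_
    split_ifs
    · exact continuous_const
    · exact continuous_id.matrix_elem x y
  have c3 : Continuous fun M : Matrix X X ℝ => psi cl M := by
    simp only [psi_eq]
    exact continuous_const.sub (continuous_finsetSum _ fun b _ =>
      Q_cont.comp (continuous_id.matrix_mulVec continuous_const))
  have t1 := (c1.tendsto A).comp hlimA
  have t2 := (c2.tendsto A).comp hlimA
  have t3 := (c3.tendsto L).comp hlimL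
  rw [hN0] at t1
  rw [leak_pat cl hpat] at t2
  rw [hψ] at t3
  obtain ⟨k, k1, k2, k3⟩ := ((t1.eventually (gt_mem_nhds hδ)).and
    ((t2.eventually (gt_mem_nhds (half_pos hδ))).and
      (t3.eventually (gt_mem_nhds (show (0 : ℝ) < δ / 4 by positivity))))).exists
  simp only [Function.comp] at k1 k2 k3
  set ε := leak cl σ (f (k + 2)) with hε
  have hε0 : 0 ≤ ε := leak_nonneg cl σ (hf' k)
  by_cases hk : ((k + 2 : ℕ) : ℝ) * ε ≤ δ
  · exact absurd (hloc _ (hf' k) (k + 2) (by omega) k1.le hk) (not_le.2 (hlt (k + 2) (by omega)))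
  · push Not at hk
    have hε1 : 0 < ε := by
      rcases hε0.eq_or_lt with h | h
      · rw [← h, mul_zero] at hk; linarith
      · exact h
    have a1 : (⌊δ / ε⌋₊ : ℝ) ≤ δ / ε := Nat.floor_le (by positivity)
    have a2 : δ / ε < ⌊δ / ε⌋₊ + 1 := Nat.lt_floor_add_one _
    rw [le_div_iff₀ hε1] at a1
    rw [div_lt_iff₀ hε1] at a2
    have a3 : ⌊δ / ε⌋₊ ≤ k + 2 := by
      have : (⌊δ / ε⌋₊ : ℝ) * ε < ((k + 2 : ℕ) : ℝ) * ε := a1.trans_lt hk
      have := lt_of_mul_lt_mul_right this hε0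
      exact_mod_cast this.le
    have a4 := psi_mono cl (hf' k) a3
    have a5 := psi_ge cl (pow_mem (hf' k) ⌊δ / ε⌋₊) (σ ^ ⌊δ / ε⌋₊)
    obtain ⟨a6, a7⟩ := leak_pow cl hσ (hf' k) ⌊δ / ε⌋₊
    rw [← hε] at a6 a7
    set t := (⌊δ / ε⌋₊ : ℝ) * ε
    set l := leak cl (σ ^ ⌊δ / ε⌋₊) (f (k + 2) ^ ⌊δ / ε⌋₊)
    have b1 : δ / 2 ≤ t := by nlinarith
    have b2 : 3 / 4 * t ≤ l := by nlinarith
    have b3 : 3 / 4 * l ≤ (1 - l) * l := by nlinarith
    nlinarith

end Pool.Agent.H427Z.Perm
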