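import Pool.Agent.H427Z.StackDefs

set_option autoImplicit false

namespace Pool.Agent.H427Z.Stack

open Classical

/-- shellable families of facets, inductively -/
inductive Sh {T : Type} : Set (Finset T) → Prop
  | nil : Sh ∅
  | cons (S : Set (Finset T)) (F : Finset T) : Sh S → F ∉ S →
      (∀ G ∈ S, ∃ H ∈ S, ∃ x ∈ F, x ∉ G ∧ ∀ y ∈ F, y ≠ x → y ∈ H) → Sh (insert F S)

def dl {T : Type} (S : Set (Finset T)) (v : T) : Set (Finset T) := {G | G ∈ S ∧ v ∉ G}

def lk {T : Type} (S : Set (Finset T)) (v : T) : Set (Finset T) :=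
  {G | ∃ H ∈ S, v ∈ H ∧ ∀ y, y ∈ G ↔ y ∈ H ∧ y ≠ v}

/-- vertex decomposability on the level of facets -/
inductive VDf {T : Type} : Set (Finset T) → Prop
  | single (F : Finset T) : VDf {F}
  | shed (S : Set (Finset T)) (v : T) : VDf (dl S v) → VDf (lk S v) →
      (∀ G ∈ S, v ∈ G → ∃ H ∈ S, v ∉ H ∧ ∀ y ∈ G, y ≠ v → y ∈ H) → VDf S

variable {T : Type}

lemma Sh_single (F : Finset T) : Sh ({F} : Set (Finset T)) := by
  have := Sh.cons ∅ F Sh.nil (by simp) (by simp)
  simpa using this

lemma Sh_aux (S0 : Set (Finset T)) (u : T) (h0 : Sh S0) (hu0 : ∀ G ∈ S0, u ∉ G)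
    (S1 : Set (Finset T)) (h1 : Sh S1) :
    (∀ G ∈ S1, u ∉ G) → (∀ G ∈ S1, ∃ H ∈ S0, G ⊆ H) →
      Sh (S0 ∪ (fun G => insert u G) '' S1) := by
  induction h1 with
  | nil => intro _ _; simpa using h0
  | cons S F hS hF hc ih =>
    intro hu hcov
    have ih' := ih (fun G hG => hu G (Set.mem_insert_of_mem _ hG))
      (fun G hG => hcov G (Set.mem_insert_of_mem _ hG))
    have huF : u ∉ F := hu F (Set.mem_insert _ _)
    rw [Set.image_insert_eq, Set.union_insert]
    refine Sh.cons _ _ ih' ?_ ?_
    · rintro (h | ⟨G, hG, h⟩)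
      · exact hu0 _ h (Finset.mem_insert_self _ _)
      · have huG : u ∉ G := hu G (Set.mem_insert_of_mem _ hG)
        have : G = F := by
          have h2 := congrArg (fun s => Finset.erase s u) h
          simpa [Finset.erase_insert huG, Finset.erase_insert huF] using h2
        exact hF (this ▸ hG)
    · rintro G (hG | ⟨G', hG', rfl⟩)
      · obtain ⟨H, hH, hFH⟩ := hcov F (Set.mem_insert _ _)
        refine ⟨H, Or.inl hH, u, Finset.mem_insert_self _ _, hu0 G hG, ?_⟩
        intro y hy hyu
        rcases Finset.mem_insert.1 hy with h | h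
        · exact absurd h hyu
        · exact hFH h
      · obtain ⟨H, hH, x, hx, hxG, hy⟩ := hc G' hG'
        refine ⟨insert u H, Or.inr ⟨H, hH, rfl⟩, x, Finset.mem_insert_of_mem hx, ?_, ?_⟩
        · intro h
          rcases Finset.mem_insert.1 h with h | h
          · exact huF (h ▸ hx)
          · exact hxG h
        · intro y hy' hyx
          rcases Finset.mem_insert.1 hy' with h | h
          · exact h ▸ Finset.mem_insert_self _ _
          · exact Finset.mem_insert_of_mem (hy y h hyx)

lemma Sh_shed (S : Set (Finset T)) (u : T) (h0 : Sh (dl S u)) (h1 : Sh (lk S u))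
    (hs : ∀ G ∈ S, u ∈ G → ∃ H ∈ S, u ∉ H ∧ ∀ y ∈ G, y ≠ u → y ∈ H) : Sh S := by
  have := Sh_aux (dl S u) u h0 (fun G hG => hG.2) (lk S u) h1 ?_ ?_
  · convert this using 1
    ext G
    constructor
    · intro hG
      by_cases hu : u ∈ G
      · right
        refine ⟨G.erase u, ⟨G, hG, hu, fun y => ?_⟩, Finset.insert_erase hu⟩
        rw [Finset.mem_erase]; tauto
      · exact Or.inl ⟨hG, hu⟩
    · rintro (h | ⟨G', ⟨H, hH, huH, hy⟩, rfl⟩)
      · exact h.1
      · have : insert u G' = H := by
          ext y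
          rw [Finset.mem_insert, hy]
          constructor
          · rintro (rfl | h)
            · exact huH
            · exact h.1
          · intro h
            by_cases hyu : y = u
            · exact Or.inl hyu
            · exact Or.inr ⟨h, hyu⟩
        show insert u G' ∈ S
        rw [this]; exact hH
  · rintro G ⟨H, _, _, hy⟩ h
    exact ((hy u).1 h).2 rfl
  · rintro G ⟨H, hH, huH, hy⟩
    obtain ⟨H', hH', huH', hy'⟩ := hs H hH huH
    exact ⟨H', ⟨hH', huH'⟩, fun y h => hy' y ((hy y).1 h).1 ((hy y).1 h).2⟩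

lemma VDf.sh {S : Set (Finset T)} (h : VDf S) : Sh S := by
  induction h with
  | single F => exact Sh_single F
  | shed S v _ _ hs ih0 ih1 => exact Sh_shed S v ih0 ih1 hs

/-- strong connectivity -/
lemma Sh.conn {S : Set (Finset T)} (h : Sh S) (C : Finset T → Prop) :
    (∀ G ∈ S, ∀ H ∈ S, (∃ x ∈ G, ∀ y ∈ G, y ≠ x → y ∈ H) → (C G ↔ C H)) →
      ∀ G ∈ S, ∀ H ∈ S, C G → C H := by
  induction h with
  | nil => intro _ G hG; simp at hG
  | cons S F hS hF hc ih =>
    intro hC
    have ih' := ih (fun G hG H hH => hC G (Set.mem_insert_of_mem _ hG) H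
      (Set.mem_insert_of_mem _ hH))
    have key : ∀ G ∈ S, (C F ↔ C G) := by
      intro G hG
      obtain ⟨H, hH, x, hx, _, hy⟩ := hc G hG
      have h1 := hC F (Set.mem_insert _ _) H (Set.mem_insert_of_mem _ hH) ⟨x, hx, hy⟩
      rw [h1]
      exact ⟨ih' H hH G hG, ih' G hG H hH⟩
    rintro G (rfl | hG) H (rfl | hH) hCG
    · exact hCG
    · exact (key H hH).1 hCG
    · exact (key G hG).2 hCG
    · exact ih' G hG H hH hCG

lemma Sh_dim0 (S : Set (Finset T)) (hfin : S.Finite) (h : ∀ F ∈ S, F.card = 1) : Sh S := by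
  induction S, hfin using Set.Finite.induction_on with
  | empty => exact Sh.nil
  | @insert F S hF hfin ih =>
    refine Sh.cons _ _ (ih fun G hG => h G (Set.mem_insert_of_mem _ hG)) hF ?_
    intro G hG
    obtain ⟨x, rfl⟩ := Finset.card_eq_one.1 (h F (Set.mem_insert _ _))
    obtain ⟨z, rfl⟩ := Finset.card_eq_one.1 (h G (Set.mem_insert_of_mem _ hG))
    refine ⟨_, hG, x, Finset.mem_singleton_self _, ?_, ?_⟩
    · intro hx
      rw [Finset.mem_singleton] at hx
      exact hF (hx ▸ hG)
    · intro y hy hyx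
      exact absurd (Finset.mem_singleton.1 hy) hyx

lemma exists_facet (K : Finset (Finset T)) (s : Finset T) (hs : s ∈ K) :
    ∃ F, IsFacet K F ∧ s ⊆ F := by
  obtain ⟨F, hF, hmax⟩ := Finset.exists_max_image (K.filter fun G => s ⊆ G) Finset.card
    ⟨s, by simp [hs]⟩
  rw [Finset.mem_filter] at hF
  refine ⟨F, ⟨hF.1, fun G hG hFG => ?_⟩, hF.2⟩
  have := hmax G (Finset.mem_filter.2 ⟨hG, hF.2.trans hFG⟩)
  exact (Finset.eq_of_subset_of_card_le hFG this).symm

lemma VertexDecomposable.pure {K : Finset (Finset T)} (h : VertexDecomposable K) : IsPure K := by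
  cases h with
  | simplex F =>
    intro G H hG hH
    have h1 := hG.2 F (Finset.mem_powerset_self _) (Finset.mem_powerset.1 hG.1)
    have h2 := hH.2 F (Finset.mem_powerset_self _) (Finset.mem_powerset.1 hH.1)
    rw [← h1, ← h2]
  | shed K v _ hp _ _ _ _ => exact hp

lemma VertexDecomposable.vdf {K : Finset (Finset T)} (h : VertexDecomposable K) :
    VDf {F | IsFacet K F} := by
  induction h with
  | simplex F =>
    convert VDf.single F using 1
    ext G
    simp only [Set.mem_setOf_eq, Set.mem_singleton_iff]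
    constructor
    · intro hG
      exact (hG.2 F (Finset.mem_powerset_self _) (Finset.mem_powerset.1 hG.1)).symm
    · rintro rfl
      exact ⟨Finset.mem_powerset_self _, fun H hH hGH =>
        Finset.Subset.antisymm (Finset.mem_powerset.1 hH) hGH⟩
  | shed K v hK hp hv _ _ hs ih1 ih0 =>
    have hlk : ∀ G, IsFacet (link K v) G ↔ G ∈ lk {F | IsFacet K F} v := by
      intro G
      constructor
      · rintro ⟨hG, hmax⟩
        simp only [link, Finset.mem_filter] at hG
        obtain ⟨H, hH, hGH⟩ := exists_facet K _ hG.2.2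
        have hvH : v ∈ H := hGH (Finset.mem_insert_self _ _)
        have h1 : H.erase v ∈ link K v := by
          simp only [link, Finset.mem_filter]
          refine ⟨hK.2 H hH.1 _ (Finset.erase_subset _ _), Finset.notMem_erase _ _, ?_⟩
          rw [Finset.insert_erase hvH]; exact hH.1
        have h2 := hmax _ h1 (fun y hy => Finset.mem_erase.2
          ⟨fun h => hG.2.1 (h ▸ hy), hGH (Finset.mem_insert_of_mem hy)⟩)
        refine ⟨H, hH, hvH, fun y => ?_⟩
        rw [← h2, Finset.mem_erase]; tauto
      · rintro ⟨H, hH, hvH, hy⟩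
        have hG : G = H.erase v := by
          ext y; rw [hy, Finset.mem_erase]; tauto
        subst hG
        refine ⟨?_, ?_⟩
        · simp only [link, Finset.mem_filter]
          refine ⟨hK.2 H hH.1 _ (Finset.erase_subset _ _), Finset.notMem_erase _ _, ?_⟩
          rw [Finset.insert_erase hvH]; exact hH.1
        · intro G' hG' hsub
          simp only [link, Finset.mem_filter] at hG'
          have h1 : insert v G' = H := hH.2 _ hG'.2.2 (fun y hy => by
            by_cases hyv : y = v
            · exact hyv ▸ Finset.mem_insert_self _ _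
            · exact Finset.mem_insert_of_mem (hsub (Finset.mem_erase.2 ⟨hyv, hy⟩)))
          rw [← h1, Finset.erase_insert hG'.2.1]
    have hdl : ∀ G, IsFacet (deletion K v) G ↔ G ∈ dl {F | IsFacet K F} v := by
      intro G
      constructor
      · intro hG
        have hG' := hG.1
        simp only [deletion, Finset.mem_filter] at hG'
        refine ⟨?_, hG'.2⟩
        obtain ⟨H, hH, hGH⟩ := exists_facet K _ hG'.1
        by_cases hvH : v ∈ H
        · exfalso
          have h1 : H.erase v ∈ deletion K v := by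
            simp only [deletion, Finset.mem_filter]
            exact ⟨hK.2 H hH.1 _ (Finset.erase_subset _ _), Finset.notMem_erase _ _⟩
          have h2 := hG.2 _ h1 (fun y hy => Finset.mem_erase.2
            ⟨fun h => hG'.2 (h ▸ hy), hGH hy⟩)
          refine hs G ((hlk G).2 ⟨H, hH, hvH, fun y => ?_⟩) hG
          rw [← h2, Finset.mem_erase]; tauto
        · have h1 : H ∈ deletion K v := by
            simp only [deletion, Finset.mem_filter]
            exact ⟨hH.1, hvH⟩
          have h2 := hG.2 _ h1 hGH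
          rw [← h2]; exact hH
      · rintro ⟨hG, hvG⟩
        refine ⟨?_, fun H hH hGH => hG.2 H ?_ hGH⟩
        · simp only [deletion, Finset.mem_filter]
          exact ⟨hG.1, hvG⟩
        · simp only [deletion, Finset.mem_filter] at hH
          exact hH.1
    refine VDf.shed _ v ?_ ?_ ?_
    · convert ih0 using 1
      ext G; exact (hdl G).symm
    · convert ih1 using 1
      ext G; exact (hlk G).symm
    · intro G hG hvG
      have h1 : G.erase v ∈ deletion K v := by
        simp only [deletion, Finset.mem_filter]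
        exact ⟨hK.2 G hG.1 _ (Finset.erase_subset _ _), Finset.notMem_erase _ _⟩
      obtain ⟨H, hH, hGH⟩ := exists_facet _ _ h1
      obtain ⟨hH1, hH2⟩ := (hdl H).1 hH
      exact ⟨H, hH1, hH2, fun y hy hyv => hGH (Finset.mem_erase.2 ⟨hyv, hy⟩)⟩

/-- from the inductive notion to an explicit list -/
lemma Sh.list {S : Set (Finset T)} (h : Sh S) :
    ∃ (m : ℕ) (F : ℕ → Finset T),
      (∀ i j, i < m → j < m → F i = F j → i = j) ∧
      (∀ G, G ∈ S ↔ ∃ j, j < m ∧ F j = G) ∧
      ∀ j, j < m → ∀ i, i < j → ∃ k, k < j ∧ ∃ x ∈ F j, x ∉ F i ∧ ∀ y ∈ F j, y ≠ x → y ∈ F k := by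
  induction h with
  | nil => exact ⟨0, fun _ => ∅, by simp, by simp, by simp⟩
  | cons S G hS hG hc ih =>
    obtain ⟨m, F, h1, h2, h3⟩ := ih
    refine ⟨m + 1, fun j => if j = m then G else F j, ?_, ?_, ?_⟩
    · intro i j hi hj hij
      by_cases e1 : i = m <;> by_cases e2 : j = m
      · omega
      · simp only [e1, e2, if_true, if_false] at hij
        exact absurd ((h2 G).2 ⟨j, by omega, hij.symm⟩) hG
      · simp only [e1, e2, if_true, if_false] at hij
        exact absurd ((h2 G).2 ⟨i, by omega, hij⟩) hG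
      · simp only [e1, e2, if_false] at hij
        exact h1 i j (by omega) (by omega) hij
    · intro H
      constructor
      · rintro (rfl | hH)
        · exact ⟨m, by omega, by simp⟩
        · obtain ⟨j, hj, rfl⟩ := (h2 H).1 hH
          exact ⟨j, by omega, by simp [hj.ne]⟩
      · rintro ⟨j, hj, rfl⟩
        by_cases e : j = m
        · simp [e]
        · simp only [e, if_false]
          exact Set.mem_insert_of_mem _ ((h2 _).2 ⟨j, by omega, rfl⟩)
    · intro j hj i hi
      have ei : i ≠ m := by omega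
      by_cases e : j = m
      · subst e
        obtain ⟨H, hH, x, hx, hxi, hy⟩ := hc (F i) ((h2 _).2 ⟨i, hi, rfl⟩)
        obtain ⟨k, hk, rfl⟩ := (h2 H).1 hH
        refine ⟨k, hk, x, by simpa using hx, by simpa [ei] using hxi, ?_⟩
        simpa [hk.ne] using hy
      · obtain ⟨k, hk, x, hx, hxi, hy⟩ := h3 j (by omega) i hi
        have ek : k ≠ m := by omega
        refine ⟨k, hk, x, by simpa [e] using hx, by simpa [ei] using hxi, ?_⟩
        simpa [e, ek] using hy

lemma shellable_of_Sh (K : Finset (Finset T)) (hp : IsPure K) (h : Sh {F | IsFacet K F}) :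
    Shellable K := by
  obtain ⟨m, F, h1, h2, h3⟩ := h.list
  refine ⟨hp, m, F, h1, h2, ?_⟩
  intro j hj _ G hG
  have hG1 := hG.1
  simp only [overlap, Finset.mem_filter, Finset.mem_powerset] at hG1
  obtain ⟨hGj, i, hi, hGi⟩ := hG1
  obtain ⟨k, hk, x, hx, hxi, hy⟩ := h3 j hj i hi
  have h4 : (F j).erase x ∈ overlap F j := by
    simp only [overlap, Finset.mem_filter, Finset.mem_powerset]
    exact ⟨Finset.erase_subset _ _, k, hk, fun y hy' =>
      hy y (Finset.mem_erase.1 hy').2 (Finset.mem_erase.1 hy').1⟩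
  have h5 := hG.2 _ h4 (fun y hy' => Finset.mem_erase.2
    ⟨fun h => hxi (h ▸ hGi hy'), hGj hy'⟩)
  rw [← h5, Finset.card_erase_add_one hx]

end Pool.Agent.H427Z.Stack
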