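import Pool.Agent.H427Z.StackA

set_option autoImplicit false

namespace Pool.Agent.H427Z.Stack

open Classical

variable {V W : Type}

/-- state of a vertex decomposition of a stacked complex -/
structure State (S : Set (Finset (V ⊕ W))) (n : ℕ) (A B : Set W) (φ : W → Finset V) : Prop where
  finA : A.Finite
  cardA : ∀ a ∈ A, (φ a).card = n + 1
  cardB : ∀ b ∈ B, (φ b).card = n
  disj : ∀ a ∈ A, a ∉ B
  inj : ∀ a ∈ A, ∀ a' ∈ A, φ a = φ a' → a = a'
  mem : ∀ G, G ∈ S ↔ (∃ a ∈ A, ∃ v ∈ φ a, G = ((φ a).erase v).disjSum {a}) ∨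
    (∃ b ∈ B, G = (φ b).disjSum {b})

lemma State.conn {S : Set (Finset (V ⊕ W))} {n : ℕ} {A B : Set W} {φ : W → Finset V}
    (st : State S n A B φ) (hS : Sh S) (b : W) (hb : b ∈ B)
    (hno : ∀ a ∈ A, ¬ φ b ⊆ φ a) :
    ∀ G ∈ S, ∃ b' ∈ B, φ b' = φ b ∧ G = (φ b').disjSum {b'} := by
  -- every facet is `s.disjSum {w}` with `s.card = n`
  have hform : ∀ G ∈ S, ∃ w s, s.card = n ∧ G = s.disjSum {w} ∧
      ((w ∈ A ∧ s ⊆ φ w) ∨ (w ∈ B ∧ s = φ w)) := by
    intro G hG
    rcases (st.mem G).1 hG with ⟨a, ha, v, hv, rfl⟩ | ⟨b, hb, rfl⟩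
    · refine ⟨a, _, ?_, rfl, Or.inl ⟨ha, Finset.erase_subset _ _⟩⟩
      rw [Finset.card_erase_of_mem hv, st.cardA a ha]; rfl
    · exact ⟨b, _, st.cardB b hb, rfl, Or.inr ⟨hb, rfl⟩⟩
  -- one direction, symmetric form
  have hone : ∀ w s w' s', s.card = n → s'.card = n →
      ((w' ∈ A ∧ s' ⊆ φ w') ∨ (w' ∈ B ∧ s' = φ w')) → (w = w' ∨ s = s') →
      (∃ b' ∈ B, φ b' = φ b ∧ s.disjSum {w} = (φ b').disjSum {b'}) →
      (∃ b' ∈ B, φ b' = φ b ∧ s'.disjSum {w'} = (φ b').disjSum {b'}) := by
    rintro w s w' s' _ _ h' hor ⟨b', hb', hφ, he⟩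
    rw [Finset.disjSum_inj, Finset.singleton_inj] at he
    obtain ⟨rfl, rfl⟩ := he
    rcases hor with rfl | rfl
    · rcases h' with ⟨h1, _⟩ | ⟨_, rfl⟩
      · exact absurd hb' (st.disj _ h1)
      · exact ⟨w, hb', hφ, rfl⟩
    · rcases h' with ⟨h1, h2⟩ | ⟨h1, h2⟩
      · exact absurd (hφ ▸ h2) (hno _ h1)
      · exact ⟨w', h1, h2 ▸ hφ, by rw [← h2]⟩
  have hc := hS.conn (fun G => ∃ b' ∈ B, φ b' = φ b ∧ G = (φ b').disjSum {b'}) ?_
  · intro G hG
    exact hc _ ((st.mem _).2 (Or.inr ⟨b, hb, rfl⟩)) G hG ⟨b, hb, rfl, rfl⟩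
  · rintro G hG H hH ⟨x, hx, hy⟩
    obtain ⟨w, s, hs, rfl, h⟩ := hform G hG
    obtain ⟨w', s', hs', rfl, h'⟩ := hform H hH
    have hor : w = w' ∨ s = s' := by
      by_cases hw : w = w'
      · exact Or.inl hw
      · right
        have hxw : x = Sum.inr w := by
          by_contra hne
          have := hy (Sum.inr w) (by simp) (fun h => hne h.symm)
          simp at this
          exact hw this
        subst hxw
        refine Finset.eq_of_subset_of_card_le (fun y hy' => ?_) (by omega)
        have := hy (Sum.inl y) (by simpa using hy') (by simp)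
        simpa using this
    exact ⟨hone w s w' s' hs hs' h' hor,
      hone w' s' w s hs' hs h (hor.imp Eq.symm Eq.symm)⟩

lemma main {S : Set (Finset (V ⊕ W))} (h : VDf S) :
    ∀ (n : ℕ) (A B : Set W) (φ : W → Finset V), State S n A B φ → Sh (φ '' A) := by
  induction h with
  | single F =>
    intro n A B φ st
    rcases Nat.eq_zero_or_pos n with rfl | hn
    · refine Sh_dim0 _ (st.finA.image _) ?_
      rintro _ ⟨a, ha, rfl⟩
      exact st.cardA a ha
    · have : A = ∅ := by
        rw [Set.eq_empty_iff_forall_notMem]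
        intro a ha
        have hc := st.cardA a ha
        obtain ⟨v, hv, v', hv', hne⟩ := Finset.one_lt_card.1 (show 1 < (φ a).card by omega)
        have h1 := (st.mem _).2 (Or.inl ⟨a, ha, v, hv, rfl⟩)
        have h2 := (st.mem _).2 (Or.inl ⟨a, ha, v', hv', rfl⟩)
        rw [Set.mem_singleton_iff] at h1 h2
        have h3 := h1.trans h2.symm
        rw [Finset.disjSum_inj] at h3
        have : v ∈ (φ a).erase v := by
          rw [h3.1]; exact Finset.mem_erase.2 ⟨hne, hv⟩
        exact Finset.notMem_erase _ _ this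
      subst this
      simpa using Sh.nil
  | shed S x hd hl hs ih0 ih1 =>
    intro n A B φ st
    rcases Nat.eq_zero_or_pos n with rfl | hn
    · refine Sh_dim0 _ (st.finA.image _) ?_
      rintro _ ⟨a, ha, rfl⟩
      exact st.cardA a ha
    rcases x with u | w
    · -- an old vertex is removed
      have hB : ∀ b ∈ B, u ∉ φ b := by
        intro b hb hu
        obtain ⟨H, hH, huH, hy⟩ := hs _ ((st.mem _).2 (Or.inr ⟨b, hb, rfl⟩)) (by simpa using hu)
        have hbH := hy (Sum.inr b) (by simp) (by simp)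
        rcases (st.mem H).1 hH with ⟨a, ha, v, hv, rfl⟩ | ⟨b', hb', rfl⟩
        · have : b = a := by simpa using hbH
          exact st.disj a ha (this ▸ hb)
        · have : b = b' := by simpa using hbH
          subst this
          exact huH (by simpa using hu)
      have st0 : State (dl S (Sum.inl u)) n {a | a ∈ A ∧ u ∉ φ a} {b | b ∈ B ∨ (b ∈ A ∧ u ∈ φ b)}
          (fun w => (φ w).erase u) := by
        refine ⟨st.finA.subset fun a ha => ha.1, ?_, ?_, ?_, ?_, ?_⟩
        · rintro a ⟨ha, hu⟩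
          rw [Finset.erase_eq_of_notMem hu]; exact st.cardA a ha
        · rintro b (hb | ⟨hb, hu⟩)
          · rw [Finset.erase_eq_of_notMem (hB b hb)]; exact st.cardB b hb
          · rw [Finset.card_erase_of_mem hu, st.cardA b hb]; rfl
        · rintro a ⟨ha, hu⟩ (hb | ⟨_, hb⟩)
          · exact st.disj a ha hb
          · exact hu hb
        · rintro a ⟨ha, hu⟩ a' ⟨ha', hu'⟩ he
          rw [Finset.erase_eq_of_notMem hu, Finset.erase_eq_of_notMem hu'] at he
          exact st.inj a ha a' ha' he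
        · intro G
          constructor
          · rintro ⟨hG, huG⟩
            rcases (st.mem G).1 hG with ⟨a, ha, v, hv, rfl⟩ | ⟨b, hb, rfl⟩
            · by_cases hu : u ∈ φ a
              · right
                have : u = v := by
                  by_contra hne
                  exact huG (by simp [hne, hu])
                subst this
                exact ⟨a, Or.inr ⟨ha, hu⟩, rfl⟩
              · left
                refine ⟨a, ⟨ha, hu⟩, v, ?_, ?_⟩
                · simpa [Finset.erase_eq_of_notMem hu] using hv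
                · simp [Finset.erase_eq_of_notMem hu]
            · right
              exact ⟨b, Or.inl hb, by simp [Finset.erase_eq_of_notMem (hB b hb)]⟩
          · rintro (⟨a, ⟨ha, hu⟩, v, hv, rfl⟩ | ⟨b, hb | ⟨hb, hu⟩, rfl⟩)
            · simp only [Finset.erase_eq_of_notMem hu] at hv ⊢
              exact ⟨(st.mem _).2 (Or.inl ⟨a, ha, v, hv, rfl⟩), by simp [hu]⟩
            · simp only [Finset.erase_eq_of_notMem (hB b hb)]
              exact ⟨(st.mem _).2 (Or.inr ⟨b, hb, rfl⟩), by simp [hB b hb]⟩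
            · exact ⟨(st.mem _).2 (Or.inl ⟨b, hb, u, hu, rfl⟩), by simp⟩
      have st1 : State (lk S (Sum.inl u)) (n - 1) {a | a ∈ A ∧ u ∈ φ a} ∅
          (fun w => (φ w).erase u) := by
        refine ⟨st.finA.subset fun a ha => ha.1, ?_, by simp, by simp, ?_, ?_⟩
        · rintro a ⟨ha, hu⟩
          rw [Finset.card_erase_of_mem hu, st.cardA a ha]; omega
        · rintro a ⟨ha, hu⟩ a' ⟨ha', hu'⟩ he
          refine st.inj a ha a' ha' ?_
          rw [← Finset.insert_erase hu, ← Finset.insert_erase hu']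
          exact congrArg _ he
        · intro G
          constructor
          · rintro ⟨H, hH, huH, hy⟩
            left
            rcases (st.mem H).1 hH with ⟨a, ha, v, hv, rfl⟩ | ⟨b, hb, rfl⟩
            · have h1 : u ≠ v ∧ u ∈ φ a := by simpa using huH
              refine ⟨a, ⟨ha, h1.2⟩, v, Finset.mem_erase.2 ⟨h1.1.symm, hv⟩, ?_⟩
              ext y
              rw [hy]
              rcases y with y | y
              · simp; tauto
              · simp
            · exact absurd (by simpa using huH) (hB b hb)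
          · rintro (⟨a, ⟨ha, hu⟩, v, hv, rfl⟩ | ⟨b, hb, _⟩)
            · have hv' := Finset.mem_erase.1 hv
              refine ⟨_, (st.mem _).2 (Or.inl ⟨a, ha, v, hv'.2, rfl⟩), ?_, ?_⟩
              · simp [hu, hv'.1.symm]
              · intro y
                rcases y with y | y
                · simp; tauto
                · simp
            · simp at hb
      have i0 := ih0 _ _ _ _ st0
      have i1 := ih1 _ _ _ _ st1
      by_cases hcov : ∀ a ∈ A, u ∈ φ a → ∃ a' ∈ A, u ∉ φ a' ∧ (φ a).erase u ⊆ φ a'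
      · refine Sh_shed _ u ?_ ?_ ?_
        · convert i0 using 1
          ext G
          constructor
          · rintro ⟨⟨a, ha, rfl⟩, hu⟩
            exact ⟨a, ⟨ha, hu⟩, Finset.erase_eq_of_notMem hu⟩
          · rintro ⟨a, ⟨ha, hu⟩, rfl⟩
            simp only [Finset.erase_eq_of_notMem hu]
            exact ⟨⟨a, ha, rfl⟩, hu⟩
        · convert i1 using 1
          ext G
          constructor
          · rintro ⟨_, ⟨a, ha, rfl⟩, hu, hy⟩
            refine ⟨a, ⟨ha, hu⟩, ?_⟩
            ext y
            rw [hy, Finset.mem_erase]; tauto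
          · rintro ⟨a, ⟨ha, hu⟩, rfl⟩
            refine ⟨_, ⟨a, ha, rfl⟩, hu, fun y => ?_⟩
            rw [Finset.mem_erase]; tauto
        · rintro _ ⟨a, ha, rfl⟩ hu
          obtain ⟨a', ha', hu', hsub⟩ := hcov a ha hu
          exact ⟨_, ⟨a', ha', rfl⟩, hu', fun y hy hyu => hsub (Finset.mem_erase.2 ⟨hyu, hy⟩)⟩
      · push Not at hcov
        obtain ⟨a, ha, hu, hno⟩ := hcov
        have hall := st0.conn hd.sh a (Or.inr ⟨ha, hu⟩) (by
          rintro a' ⟨ha', hu'⟩
          simp only [Finset.erase_eq_of_notMem hu']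
          exact hno a' ha' hu')
        have : φ '' A = {φ a} := by
          ext G
          constructor
          · rintro ⟨a', ha', rfl⟩
            by_cases hu' : u ∈ φ a'
            · obtain ⟨b', _, h1, h2⟩ := hall _ ((st0.mem _).2 (Or.inr ⟨a', Or.inr ⟨ha', hu'⟩, rfl⟩))
              rw [Finset.disjSum_inj] at h2
              have h3 : (φ a').erase u = (φ a).erase u := h2.1.trans h1
              show φ a' = φ a
              rw [← Finset.insert_erase hu, ← Finset.insert_erase hu', h3]
            · exfalso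
              have hc := st0.cardA a' ⟨ha', hu'⟩
              obtain ⟨v, hv⟩ := Finset.card_pos.1 (show 0 < ((φ a').erase u).card by omega)
              obtain ⟨b', hb', _, h2⟩ := hall _ ((st0.mem _).2 (Or.inl ⟨a', ⟨ha', hu'⟩, v, hv, rfl⟩))
              rw [Finset.disjSum_inj, Finset.singleton_inj] at h2
              exact st0.disj a' ⟨ha', hu'⟩ (h2.2 ▸ hb')
          · rintro rfl
            exact ⟨a, ha, rfl⟩
        rw [this]
        exact Sh_single _
    · -- a new vertex is removed
      have st0 : State (dl S (Sum.inr w)) n {a | a ∈ A ∧ a ≠ w} {b | b ∈ B ∧ b ≠ w} φ := by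
        refine ⟨st.finA.subset fun a ha => ha.1, fun a ha => st.cardA a ha.1,
          fun b hb => st.cardB b hb.1, fun a ha hb => st.disj a ha.1 hb.1,
          fun a ha a' ha' => st.inj a ha.1 a' ha'.1, ?_⟩
        intro G
        constructor
        · rintro ⟨hG, hwG⟩
          rcases (st.mem G).1 hG with ⟨a, ha, v, hv, rfl⟩ | ⟨b, hb, rfl⟩
          · exact Or.inl ⟨a, ⟨ha, fun h => hwG (by simp [h])⟩, v, hv, rfl⟩
          · exact Or.inr ⟨b, ⟨hb, fun h => hwG (by simp [h])⟩, rfl⟩
        · rintro (⟨a, ha, v, hv, rfl⟩ | ⟨b, hb, rfl⟩)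
          · exact ⟨(st.mem _).2 (Or.inl ⟨a, ha.1, v, hv, rfl⟩), by simpa using ha.2.symm⟩
          · exact ⟨(st.mem _).2 (Or.inr ⟨b, hb.1, rfl⟩), by simpa using hb.2.symm⟩
      have i0 := ih0 _ _ _ _ st0
      by_cases hw : w ∈ A
      · have e : φ '' A = insert (φ w) (φ '' {a | a ∈ A ∧ a ≠ w}) := by
          ext G
          constructor
          · rintro ⟨a, ha, rfl⟩
            by_cases h : a = w
            · exact Or.inl (by rw [h])
            · exact Or.inr ⟨a, ⟨ha, h⟩, rfl⟩
          · rintro (rfl | ⟨a, ha, rfl⟩)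
            · exact ⟨w, hw, rfl⟩
            · exact ⟨a, ha.1, rfl⟩
        rw [e]
        refine Sh.cons _ _ i0 ?_ ?_
        · rintro ⟨a, ha, h⟩
          exact ha.2 (st.inj a ha.1 w hw h)
        · rintro _ ⟨a, ha, rfl⟩
          have hne : ¬ φ w ⊆ φ a := by
            intro hsub
            have := Finset.eq_of_subset_of_card_le hsub
              (by rw [st.cardA a ha.1, st.cardA w hw])
            exact ha.2 (st.inj a ha.1 w hw this.symm)
          obtain ⟨v, hv, hva⟩ := Finset.not_subset.1 hne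
          obtain ⟨H, hH, hwH, hy⟩ := hs _ ((st.mem _).2 (Or.inl ⟨w, hw, v, hv, rfl⟩)) (by simp)
          have hy' : ∀ y ∈ φ w, y ≠ v → Sum.inl y ∈ H := fun y h1 h2 =>
            hy (Sum.inl y) (by simp [h1, h2]) (by simp)
          rcases (st0.mem H).1 ⟨hH, hwH⟩ with ⟨a', ha', v', hv', rfl⟩ | ⟨b, hb, rfl⟩
          · refine ⟨_, ⟨a', ha', rfl⟩, v, hv, hva, fun y h1 h2 => ?_⟩
            have := hy' y h1 h2
            simp at this
            exact this.2
          · by_cases hno : ∀ a' ∈ {a | a ∈ A ∧ a ≠ w}, ¬ φ b ⊆ φ a'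
            · exfalso
              have hall := st0.conn hd.sh b hb hno
              have hc := st.cardA a ha.1
              obtain ⟨v', hv'⟩ := Finset.card_pos.1 (show 0 < (φ a).card by omega)
              obtain ⟨b', hb', _, h2⟩ := hall _ ((st0.mem _).2 (Or.inl ⟨a, ha, v', hv', rfl⟩))
              rw [Finset.disjSum_inj, Finset.singleton_inj] at h2
              exact st0.disj a ha (h2.2 ▸ hb')
            · push Not at hno
              obtain ⟨a', ha', hsub⟩ := hno
              refine ⟨_, ⟨a', ha', rfl⟩, v, hv, hva, fun y h1 h2 => hsub ?_⟩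
              simpa using hy' y h1 h2
      · convert i0 using 2
        ext a
        exact ⟨fun h => ⟨h, fun e => hw (e ▸ h)⟩, fun h => h.1⟩

lemma mem_stackAll (K : Finset (Finset V)) (G : Finset (V ⊕ Finset V)) :
    G ∈ stackAll K ↔ (∃ s ∈ K, ¬ IsFacet K s ∧ G = s.disjSum ∅) ∨
      ∃ F, IsFacet K F ∧ ∃ s, s ⊆ F ∧ s ≠ F ∧ G = s.disjSum {F} := by
  simp only [stackAll, Finset.mem_union, Finset.mem_image, Finset.mem_filter,
    Finset.mem_biUnion, Finset.mem_powerset]
  constructor
  · rintro (⟨s, ⟨h1, h2⟩, rfl⟩ | ⟨F, ⟨_, h1⟩, s, ⟨h2, h3⟩, rfl⟩)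
    · exact Or.inl ⟨s, h1, h2, rfl⟩
    · exact Or.inr ⟨F, h1, s, h2, h3, rfl⟩
  · rintro (⟨s, h1, h2, rfl⟩ | ⟨F, h1, s, h2, h3, rfl⟩)
    · exact Or.inl ⟨s, ⟨h1, h2⟩, rfl⟩
    · exact Or.inr ⟨F, ⟨h1.1, h1⟩, s, ⟨h2, h3⟩, rfl⟩

lemma facet_stackAll (K : Finset (Finset V)) (G : Finset (V ⊕ Finset V)) :
    IsFacet (stackAll K) G ↔ ∃ F, IsFacet K F ∧ ∃ v ∈ F, G = (F.erase v).disjSum {F} := by
  have hmem : ∀ F, IsFacet K F → ∀ v ∈ F, (F.erase v).disjSum {F} ∈ stackAll K := by
    intro F hF v hv
    exact (mem_stackAll K _).2 (Or.inr ⟨F, hF, _, Finset.erase_subset _ _,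
      (Finset.erase_ssubset hv).ne, rfl⟩)
  constructor
  · rintro ⟨hG, hmax⟩
    rcases (mem_stackAll K G).1 hG with ⟨s, hs, hn, rfl⟩ | ⟨F, hF, s, hs, hne, rfl⟩
    · obtain ⟨F, hF, hsF⟩ := exists_facet K s hs
      have hne : s ≠ F := fun h => hn (h ▸ hF)
      obtain ⟨v, hv, hvs⟩ := Finset.exists_of_ssubset (Finset.ssubset_iff_subset_ne.2 ⟨hsF, hne⟩)
      exact ⟨F, hF, v, hv, (hmax _ (hmem F hF v hv) (Finset.disjSum_mono
        (fun y hy => Finset.mem_erase.2 ⟨fun h => hvs (h ▸ hy), hsF hy⟩)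
        (Finset.empty_subset _))).symm⟩
    · obtain ⟨v, hv, hvs⟩ := Finset.exists_of_ssubset (Finset.ssubset_iff_subset_ne.2 ⟨hs, hne⟩)
      exact ⟨F, hF, v, hv, (hmax _ (hmem F hF v hv) (Finset.disjSum_mono
        (fun y hy => Finset.mem_erase.2 ⟨fun h => hvs (h ▸ hy), hs hy⟩)
        (Finset.Subset.refl _))).symm⟩
  · rintro ⟨F, hF, v, hv, rfl⟩
    refine ⟨hmem F hF v hv, fun H hH hsub => ?_⟩
    have h1 : Sum.inr F ∈ H := hsub (by simp)
    rcases (mem_stackAll K H).1 hH with ⟨s, hs, hn, rfl⟩ | ⟨F', hF', s, hs, hne, rfl⟩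
    · simp at h1
    · have : F = F' := by simpa using h1
      subst this
      have h2 : F.erase v ⊆ s := fun y hy => by
        have := hsub (show Sum.inl y ∈ (F.erase v).disjSum {F} by simpa using hy)
        simpa using this
      have h3 : s.card < F.card := Finset.card_lt_card (Finset.ssubset_iff_subset_ne.2 ⟨hs, hne⟩)
      have h4 := Finset.eq_of_subset_of_card_le h2 (by rw [Finset.card_erase_of_mem hv]; omega)
      rw [h4]

theorem shellable_of_stack (K : Finset (Finset V)) (hK : IsComplex K)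
    (h : VertexDecomposable (stackAll K)) : Shellable K := by
  by_cases he : IsFacet K ∅
  · have hall : ∀ F, IsFacet K F ↔ F = ∅ :=
      fun F => ⟨fun hF => he.2 F hF.1 (Finset.empty_subset _), fun h => h ▸ he⟩
    refine shellable_of_Sh K ?_ ?_
    · intro F G hF hG
      rw [(hall F).1 hF, (hall G).1 hG]
    · convert Sh_single (∅ : Finset V) using 1
      ext F; exact hall F
  · have hne : ∀ F, IsFacet K F → F.Nonempty := by
      intro F hF
      rw [Finset.nonempty_iff_ne_empty]
      rintro rfl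
      exact he hF
    have hp : IsPure K := by
      intro F G hF hG
      obtain ⟨v, hv⟩ := hne F hF
      obtain ⟨v', hv'⟩ := hne G hG
      have := h.pure _ _ ((facet_stackAll K _).2 ⟨F, hF, v, hv, rfl⟩)
        ((facet_stackAll K _).2 ⟨G, hG, v', hv', rfl⟩)
      rw [Finset.card_disjSum, Finset.card_disjSum, Finset.card_singleton, Finset.card_singleton,
        Finset.card_erase_add_one hv, Finset.card_erase_add_one hv'] at this
      exact this
    obtain ⟨s, hs⟩ := hK.1
    obtain ⟨F0, hF0, _⟩ := exists_facet K s hs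
    have hpos := Finset.card_pos.2 (hne F0 hF0)
    have st : State {G | IsFacet (stackAll K) G} (F0.card - 1) {F | IsFacet K F} ∅ id := by
      refine ⟨K.finite_toSet.subset fun F hF => hF.1, ?_, by simp, by simp, by simp, ?_⟩
      · intro F hF
        have := hp F F0 hF hF0
        show F.card = _
        omega
      · intro G
        show IsFacet _ G ↔ _
        rw [facet_stackAll]
        simp
    have := main h.vdf _ _ _ _ st
    rw [Set.image_id] at this
    exact shellable_of_Sh K hp this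

end Pool.Agent.H427Z.Stack
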