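import Mathlib

/-!
Finite abstract simplicial complexes, shellability, vertex decomposability (Provan-Billera)
and stacking of all facets.
-/

set_option autoImplicit false

namespace Pool.Agent.H427Z.Stack

open Classical

/-- A finite abstract simplicial complex on the vertex type `V`: a nonempty finite family of
finite sets closed under taking subsets. -/
def IsComplex {V : Type} (K : Finset (Finset V)) : Prop :=
  K.Nonempty ∧ ∀ s ∈ K, ∀ t, t ⊆ s → t ∈ K

/-- A facet is a face that is maximal under inclusion. -/
def IsFacet {V : Type} (K : Finset (Finset V)) (F : Finset V) : Prop :=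
  F ∈ K ∧ ∀ G ∈ K, F ⊆ G → G = F

/-- All facets have the same dimension. -/
def IsPure {V : Type} (K : Finset (Finset V)) : Prop :=
  ∀ F G, IsFacet K F → IsFacet K G → F.card = G.card

/-- The complex `⟨F j⟩ ∩ ⋃_{i < j} ⟨F i⟩`. -/
noncomputable def overlap {V : Type} (F : ℕ → Finset V) (j : ℕ) : Finset (Finset V) :=
  (F j).powerset.filter fun s => ∃ i, i < j ∧ s ⊆ F i

/-- `K` is pure and its facets can be listed without repetition as `F 0, …, F (m-1)` so that for
each `j ≥ 1` every facet of `⟨F j⟩ ∩ ⋃_{i < j} ⟨F i⟩` has dimension `dim (F j) - 1`. -/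
def Shellable {V : Type} (K : Finset (Finset V)) : Prop :=
  IsPure K ∧ ∃ (m : ℕ) (F : ℕ → Finset V),
    (∀ i j, i < m → j < m → F i = F j → i = j) ∧
    (∀ G, IsFacet K G ↔ ∃ j, j < m ∧ F j = G) ∧
    ∀ j, j < m → 1 ≤ j → ∀ G, IsFacet (overlap F j) G → G.card + 1 = (F j).card

/-- The link of the vertex `v`. -/
noncomputable def link {V : Type} (K : Finset (Finset V)) (v : V) : Finset (Finset V) :=
  K.filter fun s => v ∉ s ∧ insert v s ∈ K

/-- The deletion of the vertex `v`: all faces not containing `v`. -/
noncomputable def deletion {V : Type} (K : Finset (Finset V)) (v : V) : Finset (Finset V) :=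
  K.filter fun s => v ∉ s

/-- Vertex decomposability of pure complexes (Provan-Billera). -/
inductive VertexDecomposable {V : Type} : Finset (Finset V) → Prop
  | simplex (F : Finset V) : VertexDecomposable F.powerset
  | shed (K : Finset (Finset V)) (v : V) :
      IsComplex K → IsPure K → {v} ∈ K →
      VertexDecomposable (link K v) → VertexDecomposable (deletion K v) →
      (∀ F, IsFacet (link K v) F → ¬ IsFacet (deletion K v) F) →
      VertexDecomposable K

/-- Stacking all facets of `K`. Old vertices are `Sum.inl v`, the new vertex `w_F` of the facet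
`F` is `Sum.inr F`, and `s.disjSum t` is the union of the old vertices `s` and the new vertices
`t`. The faces are the faces of `K` that are not facets, and the sets `G ∪ {w_F}` with `F` a
facet of `K` and `G` a proper subset of `F`. -/
noncomputable def stackAll {V : Type} (K : Finset (Finset V)) :
    Finset (Finset (V ⊕ Finset V)) :=
  ((K.filter fun s => ¬ IsFacet K s).image fun s => s.disjSum ∅) ∪
    (K.filter fun F => IsFacet K F).biUnion fun F =>
      (F.powerset.filter fun G => G ≠ F).image fun G => G.disjSum {F}

end Pool.Agent.H427Z.Stack
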